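import Pool.Agent.X208.CM.Det

/-! All tuples: reduction to one field, and pairwise different fields. -/

set_option autoImplicit false

namespace Pool.Agent.X208.CM

open Filter Topology MeasureTheory
open scoped UpperHalfPlane MatrixGroups ComplexConjugate

/-- One factor after the other. -/
theorem peel0 {K : Type} [Fintype K] [DecidableEq K] {A : Type} [CommGroup A] [Fintype A]
    (C : K → Subgroup A) [∀ k, Fintype (C k)] (P : K → A → ℂ) (hP : ∀ k a, ‖P k a‖ ≤ 1)
    (hinv : ∀ k l, l ≠ k → ∀ c ∈ C k, ∀ a, P l (c * a) = P l a) (M : K → ℂ) (hM : ∀ k, ‖M k‖ ≤ 1)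
    (ε : K → ℝ) (h : ∀ k a, ‖(mean fun c : C k => P k (c * a)) - M k‖ ≤ ε k) :
    ‖(mean fun a => ∏ k, P k a) - ∏ k, M k‖ ≤ ∑ k, ε k := by
  have hA : (Fintype.card A : ℂ) ≠ 0 := by exact_mod_cast Fintype.card_ne_zero
  set X : Finset K → ℂ := fun s => mean fun a : A => (∏ k ∈ s, P k a) * ∏ k ∈ sᶜ, M k with hX
  have hstep : ∀ (s : Finset K) (k : K), k ∉ s → ‖X (insert k s) - X s‖ ≤ ε k := by
    intro s k hk
    have hCc : (Fintype.card (C k) : ℂ) ≠ 0 := by exact_mod_cast Fintype.card_ne_zero
    set Φ : A → ℂ := fun a => (∏ l ∈ s, P l a) * ∏ l ∈ (insert k s)ᶜ, M l with hΦ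
    have h1 : X (insert k s) - X s = mean fun a : A => Φ a * (P k a - M k) := by
      have hc : sᶜ = insert k (insert k s)ᶜ := by
        ext l
        simp only [Finset.mem_compl, Finset.mem_insert, not_or]
        constructor
        · intro h
          by_cases hlk : l = k
          · exact Or.inl hlk
          · exact Or.inr ⟨hlk, h⟩
        · rintro (h | h)
          · rw [h]; exact hk
          · exact h.2
      simp only [hX, mean]
      rw [← sub_div, ← Finset.sum_sub_distrib]
      congr 1
      refine Finset.sum_congr rfl fun a _ => ?_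
      rw [Finset.prod_insert hk, hc, Finset.prod_insert (by simp)]
      simp only [hΦ]
      ring
    have h2 : ∀ c : C k, (mean fun a : A => Φ a * (P k a - M k)) =
        mean fun a : A => Φ a * (P k (c * a) - M k) := by
      intro c
      unfold mean
      congr 1
      refine Fintype.sum_equiv (Equiv.mulLeft (c : A)⁻¹) _ _ fun a => ?_
      have e3 : Φ ((c : A)⁻¹ * a) = Φ a := by
        simp only [hΦ]
        congr 1
        refine Finset.prod_congr rfl fun l hl => ?_
        exact hinv k l (fun h => hk (h ▸ hl)) _ ((C k).inv_mem c.2) a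
      simp only [Equiv.coe_mulLeft]
      rw [e3, mul_inv_cancel_left]
    have h3 : (mean fun a : A => Φ a * (P k a - M k)) =
        mean fun a : A => Φ a * ((mean fun c : C k => P k (c * a)) - M k) := by
      have h4 : (mean fun a : A => Φ a * (P k a - M k)) =
          mean fun c : C k => mean fun a : A => Φ a * (P k (c * a) - M k) := by
        conv_rhs => rw [mean]
        rw [Finset.sum_congr rfl fun c _ => (h2 c).symm, Finset.sum_const, Finset.card_univ,
          nsmul_eq_mul, mul_div_cancel_left₀ _ hCc]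
      rw [h4]
      simp only [mean]
      rw [← Finset.sum_div, Finset.sum_comm, div_div, mul_comm, ← div_div, Finset.sum_div]
      congr 1
      refine Finset.sum_congr rfl fun a _ => ?_
      rw [← Finset.mul_sum, Finset.sum_sub_distrib, Finset.sum_const, Finset.card_univ,
        nsmul_eq_mul, mul_div_assoc, sub_div, mul_div_cancel_left₀ _ hCc]
    rw [h1, h3]
    refine mean_le ((norm_nonneg _).trans (h k 1)) fun a => ?_
    rw [norm_mul]
    have h5 : ‖Φ a‖ ≤ 1 := by
      simp only [hΦ]
      rw [norm_mul, norm_prod, norm_prod]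
      refine mul_le_one₀ ?_ (Finset.prod_nonneg fun _ _ => norm_nonneg _) ?_
      · exact Finset.prod_le_one (fun _ _ => norm_nonneg _) fun l _ => hP l _
      · exact Finset.prod_le_one (fun _ _ => norm_nonneg _) fun l _ => hM l
    calc _ ≤ 1 * ε k := mul_le_mul h5 (h k _) (norm_nonneg _) zero_le_one
      _ = ε k := one_mul _
  have hall : ∀ s : Finset K, ‖X s - X ∅‖ ≤ ∑ k ∈ s, ε k := by
    intro s
    induction s using Finset.induction with
    | empty => simp
    | insert k s hk ih =>
      rw [Finset.sum_insert hk]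
      have h1 := hstep s k hk
      have h2 := norm_add_le (X (insert k s) - X s) (X s - X ∅)
      rw [sub_add_sub_cancel] at h2
      linarith
  have h := hall Finset.univ
  have e1 : X Finset.univ - X ∅ = (mean fun a : A => ∏ k, P k a) - ∏ k, M k := by
    simp only [hX, Finset.compl_univ, Finset.prod_empty, mul_one, Finset.compl_empty, one_mul]
    congr 1
    unfold mean
    rw [Finset.sum_const, Finset.card_univ, nsmul_eq_mul, mul_div_cancel_left₀ _ hA]
  rwa [e1] at h

section
variable {ι : Type} {r : ℕ} (blk : ι → Fin r) {G : ι → Type} [∀ j, CommGroup (G j)]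

/-- The elements of `A` which are trivial outside the block `k` of coordinates. -/
def blockPart (A : Subgroup (∀ j, G j)) (k : Fin r) : Subgroup A where
  carrier := {a | ∀ j, blk j ≠ k → a.1 j = 1}
  one_mem' := fun _ _ => rfl
  mul_mem' := fun {a b} ha hb j hj => by
    change a.1 j * b.1 j = 1
    rw [ha j hj, hb j hj, one_mul]
  inv_mem' := fun {a} ha j hj => by
    change (a.1 j)⁻¹ = 1
    rw [ha j hj, inv_one]

/-- For any two blocks `A` is stable under the inversion of the coordinates of some blocks, among them the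
first, not the second of the two. -/
def BlockSigns (A : Subgroup (∀ j, G j)) : Prop :=
  ∀ k l, k ≠ l → ∃ s : Fin r → ℤˣ, s k = -1 ∧ s l = 1 ∧ ∀ a ∈ A, (fun i => a i ^ (s (blk i) : ℤ)) ∈ A

/-- `A` contains the `2 ^ (r - 1)`-th powers of the parts in the blocks of its elements. -/
def BlockPowers (A : Subgroup (∀ j, G j)) : Prop :=
  ∀ a ∈ A, ∀ k, (fun j => if blk j = k then a j ^ 2 ^ (r - 1) else 1) ∈ A

theorem blockPowers {A : Subgroup (∀ j, G j)} (hA : BlockSigns blk A) : BlockPowers blk A := by
  intro a ha k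
  have h : ∀ S : Finset (Fin r), k ∉ S → ∃ c ∈ A, (∀ j, blk j = k → c j = a j ^ 2 ^ S.card) ∧
      ∀ j, blk j ∈ S → c j = 1 := by
    intro S
    induction S using Finset.induction with
    | empty => exact fun _ => ⟨a, ha, by simp, by simp⟩
    | insert l S hl ih =>
      intro hk
      rw [Finset.mem_insert, not_or] at hk
      obtain ⟨c, hc, hck, hcS⟩ := ih hk.2
      obtain ⟨s, hsk, hsl, hs⟩ := hA k l hk.1
      refine ⟨c * (fun i => c i ^ (s (blk i) : ℤ))⁻¹, A.mul_mem hc (A.inv_mem (hs c hc)), ?_, ?_⟩
      · intro j hj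
        rw [Pi.mul_apply, Pi.inv_apply, hj, hsk, Finset.card_insert_of_notMem hl, hck j hj]
        simp only [Units.val_neg, Units.val_one, zpow_neg, zpow_one, inv_inv]
        rw [← pow_add, pow_succ, mul_two]
      · intro i hi
        rw [Pi.mul_apply, Pi.inv_apply]
        rcases Finset.mem_insert.1 hi with hi | hi
        · rw [hi, hsl, Units.val_one, zpow_one, mul_inv_cancel]
        · rw [hcS i hi, one_zpow, inv_one, mul_one]
  obtain ⟨c, hc, hck, hcS⟩ := h (Finset.univ.erase k) (Finset.notMem_erase _ _)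
  rw [Finset.card_erase_of_mem (Finset.mem_univ k), Finset.card_univ, Fintype.card_fin] at hck
  have : (fun j => if blk j = k then a j ^ 2 ^ (r - 1) else 1) = c := by
    funext j
    split_ifs with hj
    · exact (hck j hj).symm
    · exact (hcS j (Finset.mem_erase.2 ⟨hj, Finset.mem_univ _⟩)).symm
  rw [this]
  exact hc

end

/-- The mean over the block part of the product over the coordinates in the block. -/
noncomputable def blockMean {n r : ℕ} (blk : Fin n → Fin r) {G : Fin n → Type} [∀ j, CommGroup (G j)]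
    (φ : ∀ j, G j → ℍ) (A : Subgroup (∀ j, G j)) (k : Fin r) [Fintype (blockPart blk A k)]
    (f : Fin n → ℍ → ℂ) (b : ∀ j, G j) : ℂ :=
  mean fun c : blockPart blk A k => ∏ j with blk j = k, f j (φ j (c.1.1 j * b j))

section
variable {n r : ℕ} (blk : Fin n → Fin r) (R : Fin n → ℕ → Type) [∀ j i, CommRing (R j i)]
  [∀ j i, IsDomain (R j i)] [∀ j i, Fintype (ClassGroup (R j i))]
  (φ : ∀ j i, ClassGroup (R j i) → ℍ) (A : ∀ i, Subgroup (∀ j, ClassGroup (R j i)))

/-- The orbits of the subgroups of the elements of `A i` in the block `k` equidistribute in the coordinates of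
this block, for all tuples. -/
def BlockLaw [∀ i k, Fintype (blockPart blk (A i) k)] (k : Fin r) : Prop :=
  ∀ f : Fin n → ℍ → ℂ, (∀ j, IsTest (f j)) → ∀ b : ∀ i j, ClassGroup (R j i),
    Tendsto (fun i => blockMean blk (fun j => φ j i) (A i) k f (b i)) atTop
      (𝓝 (∏ j with blk j = k, hyp (f j)))

variable {blk R φ A}

/-- The reduction to one block. -/
theorem equi_of_blocks [∀ i, Fintype (A i)] [∀ i k, Fintype (blockPart blk (A i) k)]
    (h : ∀ k, BlockLaw blk R φ A k) (b : ∀ i j, ClassGroup (R j i)) :
    Equi fun i (a : A i) j => φ j i (a.1 j * b i j) := by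
  obtain ⟨g, hg, hap⟩ := exists_family
  refine equi_of_family (fun N => ⟨N, hap N⟩) _ fun e _ => ?_
  set f : Fin n → ℍ → ℂ := fun j => g (e j) with hf
  have hft : ∀ j, IsTest (f j) := fun j => hg (e j)
  set M : Fin r → ℂ := fun k => ∏ j with blk j = k, hyp (f j) with hM
  set dev : Fin r → ∀ i, (∀ j, ClassGroup (R j i)) → ℝ := fun k i g' =>
    ‖(mean fun c : blockPart blk (A i) k => ∏ j with blk j = k, f j (φ j i (c.1.1 j * g' j))) - M k‖
    with hdev
  -- the maxima
  have hmax : ∀ k i, ∃ g' : ∀ j, ClassGroup (R j i), ∀ g'' , dev k i g'' ≤ dev k i g' := fun k i =>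
    Finite.exists_max (dev k i)
  choose B hB using hmax
  have hlim : ∀ k, Tendsto (fun i => dev k i (B k i)) atTop (𝓝 0) := by
    intro k
    have h1 := h k f hft (fun i => B k i)
    have h2 := (h1.sub_const (M k)).norm
    rw [sub_self, norm_zero] at h2
    exact h2
  have hM1 : ∀ k, ‖M k‖ ≤ 1 := by
    intro k
    have h1 := (h k f hft b).norm
    refine le_of_tendsto' h1 fun i => mean_le zero_le_one fun c => ?_
    rw [norm_prod]
    exact Finset.prod_le_one (fun _ _ => norm_nonneg _) fun j _ => (hft j).2.2.2 _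
  have hsum : Tendsto (fun i => ∑ k, dev k i (B k i)) atTop (𝓝 0) := by
    have := tendsto_finsetSum Finset.univ fun k _ => hlim k
    simpa using this
  refine tendsto_zero_iff_norm_tendsto_zero.2
    (squeeze_zero (fun _ => norm_nonneg _) (fun i => ?_) hsum)
  have e1 : ∀ a : A i, ∏ j, f j (φ j i (a.1 j * b i j)) =
      ∏ k, ∏ j with blk j = k, f j (φ j i (a.1 j * b i j)) := fun a =>
    (Finset.prod_fiberwise _ _ _).symm
  have e2 : ∏ j, hyp (f j) = ∏ k, M k := (Finset.prod_fiberwise _ _ _).symm
  change ‖(mean fun a : A i => ∏ j, f j (φ j i (a.1 j * b i j))) - ∏ j, hyp (f j)‖ ≤ _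
  simp only [e1]
  rw [e2]
  refine peel0 (fun k => blockPart blk (A i) k)
    (fun k (a : A i) => ∏ j with blk j = k, f j (φ j i (a.1 j * b i j))) (fun k a => ?_)
    (fun k l hl c hc a => ?_) M hM1 _ (fun k a => ?_)
  · rw [norm_prod]
    exact Finset.prod_le_one (fun _ _ => norm_nonneg _) fun j _ => (hft j).2.2.2 _
  · refine Finset.prod_congr rfl fun j hj => ?_
    have hjk : blk j ≠ k := by
      rw [(Finset.mem_filter.1 hj).2]
      exact hl
    have : (c * a).1 j = a.1 j := by
      change c.1 j * a.1 j = a.1 j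
      rw [hc j hjk, one_mul]
    rw [this]
  · refine le_trans (le_of_eq ?_) (hB k i fun j => a.1 j * b i j)
    simp only [hdev]
    congr 3
    funext c
    refine Finset.prod_congr rfl fun j _ => ?_
    congr 2
    change c.1.1 j * a.1 j * b i j = _
    rw [mul_assoc]

end

end Pool.Agent.X208.CM
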