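import Pool.Agent.X208.CM.SW

/-! Approximation of all test functions on the product by countably many tensors. -/

set_option autoImplicit false

namespace Pool.Agent.X208.CM

open Filter Topology MeasureTheory Set
open scoped UpperHalfPlane MatrixGroups ComplexConjugate

theorem exists_dense (N : ℕ) : ∃ D : Set C(ℍ, ℂ), D.Countable ∧ D ⊆ T N ∧
    ∀ f ∈ T N, ∀ δ : ℝ, 0 < δ → ∃ g ∈ D, ∀ z, ‖f z - g z‖ ≤ δ := by
  obtain ⟨s, hs, hd⟩ := TopologicalSpace.exists_countable_dense (T N)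
  refine ⟨Subtype.val '' s, hs.image _, by rintro _ ⟨g, _, rfl⟩; exact g.2, fun f hf δ hδ => ?_⟩
  have hK := ModularGroup.isCompact_truncatedFundamentalDomain (N : ℝ)
  have h1 := (ContinuousMap.tendsto_iff_forall_isCompact_tendstoUniformlyOn
    (F := fun g : C(ℍ, ℂ) => g) (f := f) (p := 𝓝 f)).1 tendsto_id _ hK
  have h2 := Metric.tendstoUniformlyOn_iff.1 h1 δ hδ
  have h3 : ∀ᶠ g : T N in 𝓝 ⟨f, hf⟩, ∀ z ∈ ModularGroup.truncatedFundamentalDomain (N : ℝ),
      dist (f z) ((g : C(ℍ, ℂ)) z) < δ :=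
    (continuous_subtype_val.tendsto (⟨f, hf⟩ : T N)).eventually h2
  obtain ⟨U, hU, hUo, hfU⟩ := mem_nhds_iff.1 h3
  obtain ⟨g, hgU, hgs⟩ := hd.inter_open_nonempty U hUo ⟨_, hfU⟩
  refine ⟨g, ⟨g, hgs, rfl⟩, fun z => ?_⟩
  obtain ⟨γ, hγ⟩ := ModularGroup.exists_smul_mem_fd z
  rw [← hf.1 γ z, ← g.2.1 γ z]
  rcases le_or_gt (γ • z).im N with h | h
  · rw [← dist_eq_norm]
    exact (hU hgU _ ⟨hγ, h⟩).le
  · rw [hf.2.1 _ hγ h, g.2.2.1 _ hγ h, sub_zero, norm_zero]
    exact hδ.le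

theorem approx {n : ℕ} {F : (Fin n → ℍ) → ℂ} (hF : IsTestN F) :
    ∃ N : ℕ, (∀ z : Fin n → ℍ, (∀ j, z j ∈ ModularGroup.fd) → (∃ j, (N : ℝ) < (z j).im) → F z = 0) ∧
      ∀ δ : ℝ, 0 < δ → ∃ (ι : Type) (_ : Fintype ι) (c : ι → ℂ) (f : ι → Fin n → C(ℍ, ℂ)),
        (∀ k j, f k j ∈ T N) ∧ ∀ z, ‖F z - ∑ k, c k * ∏ j, f k j (z j)‖ ≤ δ := by
  classical
  obtain ⟨hc, hinv, Y, hY⟩ := hF
  -- the cutoff
  have hK0 : IsCompact (q '' ModularGroup.truncatedFundamentalDomain Y) :=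
    (ModularGroup.isCompact_truncatedFundamentalDomain Y).image q_open.continuous
  obtain ⟨χ, hχ1, -, hχc, hχ01⟩ := exists_continuous_one_zero_of_isCompact hK0
    (isClosed_empty (X := Q)) (disjoint_empty _)
  set C : Set Q := tsupport χ with hC
  have hCc : IsCompact C := hχc
  obtain ⟨m, hm⟩ := height hCc
  obtain ⟨m', hm'⟩ := exists_nat_ge Y
  -- `F` on the quotient
  have hqn : IsOpenQuotientMap (Pi.map fun _ : Fin n => q) := IsOpenQuotientMap.piMap fun _ => q_open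
  let s : Q → ℍ := fun x => (q_open.surjective x).choose
  have hs : ∀ x, q (s x) = x := fun x => (q_open.surjective x).choose_spec
  let Fq : (Fin n → Q) → ℂ := fun x => F fun j => s (x j)
  have hFq : ∀ z : Fin n → ℍ, Fq (fun j => q (z j)) = F z := by
    intro z
    have h1 : ∀ j, ∃ γ : SL(2, ℤ), γ • z j = s (q (z j)) := fun j => q_eq.1 (hs (q (z j)))
    choose γ hγ using h1
    change F (fun j => s (q (z j))) = F z
    rw [← hinv γ z]
    congr 1
    funext j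
    exact (hγ j).symm
  have hFqc : Continuous Fq := by
    rw [hqn.isQuotientMap.continuous_iff]
    have : Fq ∘ (Pi.map fun _ : Fin n => q) = F := funext hFq
    rw [this]
    exact hc
  let G : C(Fin n → C, ℂ) := ⟨fun x => Fq fun j => (x j : Q),
    hFqc.comp (continuous_pi fun j => continuous_subtype_val.comp (continuous_apply j))⟩
  -- the cutoff does not change `F`
  have hcut : ∀ z : Fin n → ℍ, F z = F z * ∏ j, ((χ (q (z j)) : ℝ) : ℂ) := by
    intro z
    have h1 : ∀ j, ∃ γ : SL(2, ℤ), γ • z j ∈ ModularGroup.fd := fun j =>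
      ModularGroup.exists_smul_mem_fd (z j)
    choose γ hγ using h1
    by_cases h : ∃ j, Y < (γ j • z j).im
    · have : F z = 0 := by
        rw [← hinv γ z]
        exact hY _ hγ h
      rw [this, zero_mul]
    · push Not at h
      have h2 : ∀ j, χ (q (z j)) = 1 := by
        intro j
        refine hχ1 ⟨γ j • z j, ⟨hγ j, h j⟩, q_smul _ _⟩
      simp only [h2, Complex.ofReal_one, Finset.prod_const_one, mul_one]
  refine ⟨max m m', fun z hz ⟨j, hj⟩ => hY z hz ⟨j, ?_⟩, fun δ hδ => ?_⟩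
  · refine lt_of_le_of_lt (hm'.trans ?_) hj
    exact_mod_cast le_max_right m m'
  obtain ⟨ι, iι, c, g, hg⟩ := sw hCc G hδ
  -- the tests
  let h : ι → Fin n → C(Q, ℂ) := fun k j => ⟨fun x => ((χ x : ℝ) : ℂ) * g k j x, by fun_prop⟩
  have hh : ∀ k j x, h k j x = ((χ x : ℝ) : ℂ) * g k j x := fun _ _ _ => rfl
  have hzero : ∀ x : Q, x ∉ C → χ x = 0 := fun x hx => image_eq_zero_of_notMem_tsupport hx
  have hbd : ∀ k j, ∃ B : ℝ, 0 < B ∧ ∀ x, ‖h k j x‖ ≤ B := by
    intro k j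
    obtain ⟨B, hB⟩ := hCc.exists_bound_of_continuousOn (h k j).continuous.continuousOn
    refine ⟨max B 1, lt_of_lt_of_le zero_lt_one (le_max_right _ _), fun x => ?_⟩
    by_cases hx : x ∈ C
    · exact (hB x hx).trans (le_max_left _ _)
    · rw [hh, hzero x hx]
      simp
  choose B hB0 hB using hbd
  let f : ι → Fin n → C(ℍ, ℂ) := fun k j =>
    ⟨fun z => ((B k j : ℝ) : ℂ)⁻¹ * h k j (q z), by
      have := q_open.continuous
      exact continuous_const.mul ((h k j).continuous.comp this)⟩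
  have hf : ∀ k j z, f k j z = ((B k j : ℝ) : ℂ)⁻¹ * h k j (q z) := fun _ _ _ => rfl
  refine ⟨ι, iι, fun k => c k * ∏ j, ((B k j : ℝ) : ℂ), f, fun k j => ⟨fun γ z => ?_,
    fun z hz him => ?_, fun z => ?_⟩, fun z => ?_⟩
  · rw [hf, hf, q_smul]
  · have hx : q z ∉ C := fun hx => by
      have h1 := hm z hx
      have h2 : (m : ℝ) ≤ ((max m m' : ℕ) : ℝ) := by exact_mod_cast le_max_left m m'
      linarith
    rw [hf, hh, hzero _ hx]
    simp
  · rw [hf, norm_mul, norm_inv, Complex.norm_real, Real.norm_of_nonneg (hB0 k j).le,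
      inv_mul_le_iff₀ (hB0 k j), mul_one]
    exact hB k j _
  · have e : F z - ∑ k, (c k * ∏ j, ((B k j : ℝ) : ℂ)) * ∏ j, f k j (z j) =
        (∏ j, ((χ (q (z j)) : ℝ) : ℂ)) * (F z - ∑ k, c k * ∏ j, g k j (q (z j))) := by
      rw [mul_sub, mul_comm (∏ j, ((χ (q (z j)) : ℝ) : ℂ)) (F z), ← hcut z, Finset.mul_sum]
      congr 1
      refine Finset.sum_congr rfl fun k _ => ?_
      simp only [hf, hh, Finset.prod_mul_distrib]
      have hb : (∏ j, ((B k j : ℝ) : ℂ)) * ∏ j, ((B k j : ℝ) : ℂ)⁻¹ = 1 := by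
        rw [← Finset.prod_mul_distrib]
        refine Finset.prod_eq_one fun j _ => ?_
        exact mul_inv_cancel₀ (by exact_mod_cast (hB0 k j).ne')
      calc (c k * ∏ j, ((B k j : ℝ) : ℂ)) * ((∏ j, ((B k j : ℝ) : ℂ)⁻¹) *
            ((∏ j, ((χ (q (z j)) : ℝ) : ℂ)) * ∏ j, g k j (q (z j)))) =
          ((∏ j, ((B k j : ℝ) : ℂ)) * ∏ j, ((B k j : ℝ) : ℂ)⁻¹) *
            ((∏ j, ((χ (q (z j)) : ℝ) : ℂ)) * (c k * ∏ j, g k j (q (z j)))) := by ring
        _ = _ := by rw [hb, one_mul]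
    rw [e]
    by_cases hx : ∀ j, q (z j) ∈ C
    · have h1 := hg fun j => ⟨q (z j), hx j⟩
      have h2 : G (fun j => ⟨q (z j), hx j⟩) = F z := hFq z
      rw [h2] at h1
      rw [norm_mul, norm_prod]
      have h3 : ∏ j, ‖((χ (q (z j)) : ℝ) : ℂ)‖ ≤ 1 := by
        refine Finset.prod_le_one (fun _ _ => norm_nonneg _) fun j _ => ?_
        rw [Complex.norm_real, Real.norm_of_nonneg (hχ01 _).1]
        exact (hχ01 _).2
      calc _ ≤ 1 * δ := mul_le_mul h3 h1 (norm_nonneg _) zero_le_one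
        _ = δ := one_mul δ
    · push Not at hx
      obtain ⟨j, hj⟩ := hx
      have : ∏ j, ((χ (q (z j)) : ℝ) : ℂ) = 0 := by
        refine Finset.prod_eq_zero (Finset.mem_univ j) ?_
        rw [hzero _ hj, Complex.ofReal_zero]
      rw [this, zero_mul, norm_zero]
      exact hδ.le

end Pool.Agent.X208.CM
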