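import Pool.Agent.X208.CM.Strong

/-! The converse, and group homomorphisms. -/

set_option autoImplicit false

namespace Pool.Agent.X208.CM

open Filter Topology MeasureTheory Set
open scoped UpperHalfPlane MatrixGroups ComplexConjugate

/-- a product of tests is a test on the product -/
theorem isTestN_prod {n : ℕ} {f : Fin n → ℍ → ℂ} (hf : ∀ j, IsTest (f j)) :
    IsTestN fun z => ∏ j, f j (z j) := by
  choose Y hY using fun j => (hf j).2.2.1
  obtain ⟨M, hM⟩ := (Set.finite_range Y).bddAbove
  refine ⟨continuous_finset_prod _ fun j _ => (hf j).1.comp (continuous_apply j),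
    fun γ z => Finset.prod_congr rfl fun j _ => (hf j).2.1 _ _, M, ?_⟩
  rintro z hz ⟨j, hj⟩
  exact Finset.prod_eq_zero (Finset.mem_univ j)
    (hY j _ (hz j) (lt_of_le_of_lt (hM ⟨j, rfl⟩) hj))

theorem exists_notMem_of_share {B : Type} [Finite B] [Nonempty B] {E : Set B}
    (h : share (fun b => b ∈ E) < 1) : ∃ b, b ∉ E := by
  classical
  have := Fintype.ofFinite B
  by_contra hcon
  push Not at hcon
  rw [share_eq, Finset.filter_true_of_mem fun b _ => hcon b, Finset.card_univ, div_self] at h
  · exact lt_irrefl _ h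
  · exact_mod_cast Fintype.card_ne_zero

/-- exceptional sets give back the shares -/
theorem share_of_sets {B : ℕ → Type} [∀ i, Finite (B i)] [∀ i, Nonempty (B i)]
    {P : ∀ i, B i → Prop} {E : ∀ i, Set (B i)}
    (hE : Tendsto (fun i => share fun b => b ∈ E i) atTop (𝓝 0))
    (h : ∀ b : ∀ i, B i, (∀ᶠ i in atTop, b i ∉ E i) → ∀ᶠ i in atTop, ¬ P i (b i)) :
    Tendsto (fun i => share (P i)) atTop (𝓝 0) := by
  classical
  -- choose a bad sequence
  let b : ∀ i, B i := fun i =>
    if h1 : ∃ b, b ∉ E i ∧ P i b then h1.choose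
    else if h2 : ∃ b, b ∉ E i then h2.choose else Classical.arbitrary _
  have hb : ∀ᶠ i in atTop, b i ∉ E i := by
    filter_upwards [hE.eventually_lt_const zero_lt_one] with i hi
    have h2 := exists_notMem_of_share hi
    by_cases h1 : ∃ b, b ∉ E i ∧ P i b
    · have : b i = h1.choose := dif_pos h1
      rw [this]
      exact h1.choose_spec.1
    · have : b i = h2.choose := by
        change (if h1 : ∃ b, b ∉ E i ∧ P i b then h1.choose
          else if h2 : ∃ b, b ∉ E i then h2.choose else Classical.arbitrary _) = _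
        rw [dif_neg h1, dif_pos h2]
      rw [this]
      exact h2.choose_spec
  refine squeeze_zero' (Eventually.of_forall fun i => share_nonneg _) ?_ hE
  filter_upwards [h b hb] with i hi
  refine share_mono fun b' hP => ?_
  by_contra hcon
  have h1 : ∃ b, b ∉ E i ∧ P i b := ⟨b', hcon, hP⟩
  have : b i = h1.choose := dif_pos h1
  rw [this] at hi
  exact hi h1.choose_spec.2

section
variable {R : ℕ → Type} [∀ i, CommRing (R i)] [∀ i, IsDomain (R i)]
  [∀ i, Fintype (ClassGroup (R i))] {φ : ∀ i, ClassGroup (R i) → ℍ}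

theorem tuple_of_almostAll {n : ℕ} (h : AlmostAll (fun _ : Fin n => R) (fun _ => φ)) :
    TupleLaw R φ n := by
  intro f hf ε hε
  obtain ⟨E, hE, hb⟩ := h 1 (fun i => ClassGroup (R i)) (fun i _ a => a) fun i j => spread_id
  refine share_of_sets (B := fun i => Fin n → ClassGroup (R i)) hE fun b hbE => ?_
  have h1 := hb b hbE _ (isTestN_prod hf)
  rw [hypN_prod] at h1
  have h2 := Metric.tendsto_atTop.1 h1 ε hε
  obtain ⟨i0, hi0⟩ := h2
  refine eventually_atTop.2 ⟨i0, fun i hi => ?_⟩
  have h3 := hi0 i hi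
  rw [dist_eq_norm] at h3
  exact not_lt.2 h3.le

/-- the criterion -/
theorem criterion : (WeylLaw R φ ↔ (TupleLaw R φ 1 ∧ TupleLaw R φ 2)) ∧
    (WeylLaw R φ ↔ ∀ n : ℕ, AlmostAll (fun _ : Fin n => R) (fun _ => φ)) :=
  ⟨weyl_iff, fun h n => almostAll (general fun _ => h), fun h =>
    weyl_of_tuple (tuple_of_almostAll (h 1)) (tuple_of_almostAll (h 2))⟩

end

/-- a homomorphism onto a subgroup of index at most `κ` -/
theorem spread_hom {A G : Type} [Group A] [Fintype A] [Group G] [Fintype G] (ρ : A →* G) {κ : ℝ}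
    (h : (ρ.range.index : ℝ) ≤ κ) : Spread ρ κ := by
  classical
  intro g
  have hκ : 0 ≤ κ := (Nat.cast_nonneg _).trans h
  by_cases hg : g ∈ ρ.range
  · obtain ⟨a0, rfl⟩ := hg
    have h1 : (Finset.univ.filter fun a => ρ a = ρ a0).card = Nat.card ρ.ker := by
      rw [Nat.card_eq_fintype_card, ← Fintype.card_subtype]
      refine Fintype.card_congr ⟨fun a => ⟨a.1 * a0⁻¹, ?_⟩, fun k => ⟨k.1 * a0, ?_⟩, ?_, ?_⟩
      · rw [MonoidHom.mem_ker, map_mul, map_inv, a.2, mul_inv_cancel]
      · rw [map_mul, (MonoidHom.mem_ker).1 k.2, one_mul]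
      · intro a; ext; simp
      · intro k; ext; simp
    have h2 : Nat.card ρ.ker * Nat.card ρ.range = Nat.card A := by
      rw [← Subgroup.index_ker ρ]
      exact Subgroup.card_mul_index ρ.ker
    have h3 : Nat.card ρ.range * ρ.range.index = Nat.card G := Subgroup.card_mul_index _
    rw [Nat.card_eq_fintype_card (α := A)] at h2
    rw [Nat.card_eq_fintype_card (α := G)] at h3
    have h1' : ((@Finset.filter A (fun a => ρ a = ρ a0) (fun a => Classical.propDecidable _)
        Finset.univ).card : ℝ) = Nat.card ρ.ker := by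
      rw [← h1]
    rw [h1', ← h3, ← h2]
    push_cast
    have hr : (0 : ℝ) ≤ (Nat.card ρ.ker : ℝ) * Nat.card ρ.range := by positivity
    calc (Nat.card ρ.ker : ℝ) * (Nat.card ρ.range * ρ.range.index) =
        ρ.range.index * (Nat.card ρ.ker * Nat.card ρ.range) := by ring
      _ ≤ _ := mul_le_mul_of_nonneg_right h hr
  · have h1 : (@Finset.filter A (fun a => ρ a = g) (fun a => Classical.propDecidable _)
        Finset.univ) = ∅ := by
      rw [Finset.filter_eq_empty_iff]
      exact fun a _ ha => hg ⟨a, ha⟩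
    rw [h1]
    simp only [Finset.card_empty, Nat.cast_zero, zero_mul]
    positivity

end Pool.Agent.X208.CM
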