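import Pool.Agent.X208.CM.Ineq

/-! CM points with CM by an order, and the laws for tuples of CM points. -/

set_option autoImplicit false

namespace Pool.Agent.X208.CM

open Filter Topology MeasureTheory
open scoped UpperHalfPlane MatrixGroups nonZeroDivisors ComplexConjugate

/-- `φ C` is the CM point of the class `C`: the lattice `ℤ + ℤ φ(C)` is homothetic to the image of an
invertible ideal of the class `C` under a complex, not real, embedding. (The domain `R` is then an order of an
imaginary quadratic field.) -/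
def IsCM (R : Type) [CommRing R] [IsDomain R] (φ : ClassGroup R → ℍ) : Prop :=
  ∃ σ : FractionRing R →+* ℂ, (∃ r : R, (σ (algebraMap R (FractionRing R) r)).im ≠ 0) ∧
    ∀ C, ∃ I : (FractionalIdeal R⁰ (FractionRing R))ˣ, ClassGroup.mk (FractionRing R) I = C ∧
      ∃ c : ℂ, c ≠ 0 ∧ σ '' ((I : FractionalIdeal R⁰ (FractionRing R)) : Set (FractionRing R)) =
        {z | ∃ k l : ℤ, z = c * (k + l * (φ C : ℂ))}

/-- Test functions on the modular curve: continuous, invariant, with compact support modulo `SL(2, ℤ)`,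
bounded by `1`. -/
def IsTest (f : ℍ → ℂ) : Prop :=
  Continuous f ∧ (∀ (γ : SL(2, ℤ)) (z : ℍ), f (γ • z) = f z) ∧
    (∃ Y : ℝ, ∀ z ∈ ModularGroup.fd, Y < z.im → f z = 0) ∧ ∀ z, ‖f z‖ ≤ 1

/-- The mean of `f` for the hyperbolic probability measure `(3/π) dx dy / y²` on the modular curve. -/
noncomputable def hyp (f : ℍ → ℂ) : ℂ := (3 / Real.pi : ℝ) * ∫ z in ModularGroup.fd, f z

/-- The share of the elements with the property `P`. -/
noncomputable def share {B : Type} (P : B → Prop) : ℝ := Nat.card {b // P b} / Nat.card B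

section
variable (R : ℕ → Type) [∀ i, CommRing (R i)] [∀ i, IsDomain (R i)]
  [∀ i, Fintype (ClassGroup (R i))] (φ : ∀ i, ClassGroup (R i) → ℍ)

/-- The uniform bound for the twisted Weyl sums. -/
def WeylLaw : Prop := ∀ f, IsTest f → ∀ ε : ℝ, 0 < ε →
  ∀ᶠ i in atTop, Weyl (fun C => f (φ i C) - hyp f) ε

/-- Almost all `n`-tuples of CM points have equidistributed orbits. -/
def TupleLaw (n : ℕ) : Prop := ∀ f : Fin n → ℍ → ℂ, (∀ j, IsTest (f j)) → ∀ ε : ℝ, 0 < ε →
  Tendsto (fun i => share fun b : Fin n → ClassGroup (R i) =>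
    ε < ‖(mean fun a : ClassGroup (R i) => ∏ j, f j (φ i (a * b j))) - ∏ j, hyp (f j)‖) atTop (𝓝 0)

end

section
variable {n : ℕ} (R : Fin n → ℕ → Type) [∀ j i, CommRing (R j i)] [∀ j i, IsDomain (R j i)]
  [∀ j i, Fintype (ClassGroup (R j i))] (φ : ∀ j i, ClassGroup (R j i) → ℍ)

/-- The same for CM points by different orders, and for the orbits of finite sets `A` acting through maps
to the class groups whose fibres have at most `κ` times the average size. -/
def GeneralLaw : Prop := ∀ (κ : ℝ) (A : ℕ → Type) (_ : ∀ i, Fintype (A i))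
  (_ : ∀ i, Nonempty (A i)) (π : ∀ i j, A i → ClassGroup (R j i)),
  (∀ i j, Spread (π i j) κ) → ∀ f : Fin n → ℍ → ℂ, (∀ j, IsTest (f j)) → ∀ ε : ℝ, 0 < ε →
  Tendsto (fun i => share fun b : ∀ j, ClassGroup (R j i) =>
    ε < ‖(mean fun a : A i => ∏ j, f j (φ j i (π i j a * b j))) - ∏ j, hyp (f j)‖) atTop (𝓝 0)

end

end Pool.Agent.X208.CM
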