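import Pool.Agent.X208.CM.Conv

/-! All tuples: orbits of subgroups that are stable under sign changes. -/

set_option autoImplicit false

namespace Pool.Agent.X208.CM

open Filter Topology MeasureTheory
open scoped UpperHalfPlane MatrixGroups ComplexConjugate

section
variable {G : Type} [CommGroup G] [Fintype G]

/-- the mean over a coset of a subgroup -/
theorem coset_le (C : Subgroup G) [Fintype C] (h : G → ℂ) {w : ℝ} (hw : Weyl h w) (g : G) :
    ‖mean fun c : C => h (c * g)‖ ≤ C.index * w := by
  classical
  have hG : (Fintype.card G : ℂ) ≠ 0 := by exact_mod_cast Fintype.card_ne_zero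
  have hC : (Fintype.card C : ℂ) ≠ 0 := by exact_mod_cast Fintype.card_ne_zero
  have hGr : (0 : ℝ) < Fintype.card G := by exact_mod_cast Fintype.card_pos
  -- the characters of the quotient
  let q : G →* G ⧸ C := QuotientGroup.mk' C
  have hcardQ : Fintype.card (AddChar (Additive (G ⧸ C)) ℂ) = C.index := by
    rw [AddChar.card_eq, Subgroup.index_eq_card, Nat.card_eq_fintype_card]
    exact Fintype.card_congr Additive.toMul
  have hind : ∀ x : G, ∑ χ : AddChar (Additive (G ⧸ C)) ℂ, χ (Additive.ofMul (q x)) =
      if x ∈ C then (C.index : ℂ) else 0 := by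
    intro x
    rw [AddChar.sum_apply_eq_ite]
    by_cases hx : x ∈ C
    · have h1 : Additive.ofMul (q x) = 0 := by
        rw [ofMul_eq_zero]
        exact (QuotientGroup.eq_one_iff x).2 hx
      rw [if_pos h1, if_pos hx]
      congr 1
      rw [Subgroup.index_eq_card, Nat.card_eq_fintype_card]
      exact Fintype.card_congr Additive.toMul
    · have h1 : Additive.ofMul (q x) ≠ 0 := by
        rw [Ne, ofMul_eq_zero]
        exact fun h1 => hx ((QuotientGroup.eq_one_iff x).1 h1)
      rw [if_neg h1, if_neg hx]
  have hsum : (C.index : ℂ) * ∑ c : C, h (c * g) =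
      ∑ χ : AddChar (Additive (G ⧸ C)) ℂ, ∑ x : G, h (x * g) * χ (Additive.ofMul (q x)) := by
    rw [Finset.sum_comm]
    have e1 : ∀ x : G, ∑ χ : AddChar (Additive (G ⧸ C)) ℂ, h (x * g) * χ (Additive.ofMul (q x)) =
        if x ∈ C then (C.index : ℂ) * h (x * g) else 0 := by
      intro x
      rw [← Finset.mul_sum, hind]
      split_ifs <;> ring
    rw [Finset.sum_congr rfl fun x _ => e1 x, ← Finset.sum_filter, Finset.mul_sum]
    symm
    refine Finset.sum_subtype (Finset.univ.filter fun x => x ∈ C) (fun x => ?_) _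
    simp
  have hcard : (Fintype.card G : ℂ) = C.index * Fintype.card C := by
    have := Subgroup.card_mul_index C
    rw [Nat.card_eq_fintype_card, Nat.card_eq_fintype_card] at this
    rw [← this]
    push_cast
    ring
  have hmean : (mean fun c : C => h (c * g)) =
      ∑ χ : AddChar (Additive (G ⧸ C)) ℂ, mean fun x : G => h (x * g) * χ (Additive.ofMul (q x)) := by
    unfold mean
    rw [← Finset.sum_div, ← hsum, hcard]
    have hi : (C.index : ℂ) ≠ 0 := by exact_mod_cast Subgroup.index_ne_zero_of_finite
    field_simp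
  rw [hmean]
  have hone : ∀ χ : AddChar (Additive (G ⧸ C)) ℂ,
      ‖mean fun x : G => h (x * g) * χ (Additive.ofMul (q x))‖ ≤ w := by
    intro χ
    -- the character of `G`
    let ψ : AddChar (Additive G) ℂ :=
      { toFun := fun x => χ (Additive.ofMul (q (Additive.toMul x)))
        map_zero_eq_one' := by
          simp
        map_add_eq_mul' := fun x y => by
          rw [toMul_add, map_mul, ofMul_mul, AddChar.map_add_eq_mul] }
    have hψ : ∀ x : G, ψ (Additive.ofMul x) = χ (Additive.ofMul (q x)) := fun x => rfl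
    have e1 : (mean fun x : G => h (x * g) * χ (Additive.ofMul (q x))) =
        (mean fun x : G => h x * ψ (Additive.ofMul x)) * ψ (- Additive.ofMul g) := by
      have := mean_shift (fun x => h x * ψ (Additive.ofMul x)) g
      rw [← this]
      unfold mean
      rw [div_mul_eq_mul_div, Finset.sum_mul]
      congr 1
      refine Finset.sum_congr rfl fun x _ => ?_
      change h (x * g) * ψ (Additive.ofMul x) = _
      rw [mul_assoc, ← AddChar.map_add_eq_mul, ofMul_mul, add_neg_cancel_right]
    rw [e1, norm_mul, AddChar.norm_apply, mul_one]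
    exact hw ψ
  refine (norm_sum_le _ _).trans ((Finset.sum_le_sum fun χ _ => hone χ).trans (le_of_eq ?_))
  rw [Finset.sum_const, nsmul_eq_mul, Finset.card_univ, hcardQ]

end

section
variable {ι : Type} [Fintype ι] [DecidableEq ι] {G : ι → Type} [∀ j, CommGroup (G j)]

/-- The elements of the `j`-th factor in `A`. -/
def factor (A : Subgroup (∀ j, G j)) (j : ι) : Subgroup (G j) :=
  A.comap (MonoidHom.mulSingle G j)

omit [Fintype ι] in
theorem mem_factor {A : Subgroup (∀ j, G j)} {j : ι} {g : G j} :
    g ∈ factor A j ↔ Pi.mulSingle j g ∈ A := Iff.rfl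

/-- The orbit averages of all tuples, one coordinate after the other. -/
theorem peel (A : Subgroup (∀ j, G j)) [Fintype A] (F : ∀ j, G j → ℂ) (hF : ∀ j c, ‖F j c‖ ≤ 1)
    (m : ι → ℂ) (hm : ∀ j, ‖m j‖ ≤ 1) (ε : ι → ℝ) [∀ j, Fintype (factor A j)]
    (h : ∀ j g, ‖mean fun c : factor A j => F j (c * g) - m j‖ ≤ ε j) (b : ∀ j, G j) :
    ‖(mean fun a : A => ∏ j, F j (a.1 j * b j)) - ∏ j, m j‖ ≤ ∑ j, ε j := by
  have hA : (Fintype.card A : ℂ) ≠ 0 := by exact_mod_cast Fintype.card_ne_zero
  set X : Finset ι → ℂ := fun s =>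
    mean fun a : A => (∏ j ∈ s, F j (a.1 j * b j)) * ∏ j ∈ sᶜ, m j with hX
  have hstep : ∀ (s : Finset ι) (j : ι), j ∉ s → ‖X (insert j s) - X s‖ ≤ ε j := by
    intro s j hj
    have hCc : (Fintype.card (factor A j) : ℂ) ≠ 0 := by exact_mod_cast Fintype.card_ne_zero
    set Φ : A → ℂ := fun a => (∏ l ∈ s, F l (a.1 l * b l)) * ∏ l ∈ (insert j s)ᶜ, m l with hΦ
    have h1 : X (insert j s) - X s = mean fun a : A => Φ a * (F j (a.1 j * b j) - m j) := by
      have hc : sᶜ = insert j (insert j s)ᶜ := by
        ext l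
        simp only [Finset.mem_compl, Finset.mem_insert, not_or]
        constructor
        · intro h
          by_cases hlj : l = j
          · exact Or.inl hlj
          · exact Or.inr ⟨hlj, h⟩
        · rintro (h | h)
          · rw [h]; exact hj
          · exact h.2
      simp only [hX, mean]
      rw [← sub_div, ← Finset.sum_sub_distrib]
      congr 1
      refine Finset.sum_congr rfl fun a _ => ?_
      rw [Finset.prod_insert hj, hc, Finset.prod_insert (by simp)]
      simp only [hΦ]
      ring
    -- translation by the factor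
    have h2 : ∀ c : factor A j, (mean fun a : A => Φ a * (F j (a.1 j * b j) - m j)) =
        mean fun a : A => Φ a * (F j (c * (a.1 j * b j)) - m j) := by
      intro c
      unfold mean
      congr 1
      let c' : A := ⟨Pi.mulSingle j (c : G j), c.2⟩
      refine Fintype.sum_equiv (Equiv.mulLeft c'⁻¹) _ _ fun a => ?_
      have e1 : ∀ l ≠ j, (c'⁻¹ * a).1 l = a.1 l := by
        intro l hl
        change (Pi.mulSingle j (c : G j))⁻¹ l * a.1 l = a.1 l
        rw [Pi.inv_apply, Pi.mulSingle_eq_of_ne hl, inv_one, one_mul]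
      have e2 : (c'⁻¹ * a).1 j = (c : G j)⁻¹ * a.1 j := by
        change (Pi.mulSingle j (c : G j))⁻¹ j * a.1 j = _
        rw [Pi.inv_apply, Pi.mulSingle_eq_same]
      have e3 : Φ (c'⁻¹ * a) = Φ a := by
        simp only [hΦ]
        congr 1
        refine Finset.prod_congr rfl fun l hl => ?_
        rw [e1 l fun h => hj (h ▸ hl)]
      simp only [Equiv.coe_mulLeft]
      rw [e3, e2]
      congr 3
      rw [mul_assoc, mul_inv_cancel_left]
    have h3 : (mean fun a : A => Φ a * (F j (a.1 j * b j) - m j)) =
        mean fun a : A => Φ a * mean fun c : factor A j => F j (c * (a.1 j * b j)) - m j := by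
      have h4 : (mean fun a : A => Φ a * (F j (a.1 j * b j) - m j)) =
          mean fun c : factor A j => mean fun a : A => Φ a * (F j (c * (a.1 j * b j)) - m j) := by
        conv_rhs => rw [mean]
        rw [Finset.sum_congr rfl fun c _ => (h2 c).symm, Finset.sum_const, Finset.card_univ,
          nsmul_eq_mul, mul_div_cancel_left₀ _ hCc]
      rw [h4]
      simp only [mean]
      rw [← Finset.sum_div, Finset.sum_comm, div_div, mul_comm, ← div_div, Finset.sum_div]
      congr 1
      refine Finset.sum_congr rfl fun a _ => ?_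
      rw [← Finset.mul_sum, mul_div_assoc]
    rw [h1, h3]
    refine mean_le ((norm_nonneg _).trans (h j 1)) fun a => ?_
    rw [norm_mul]
    have h5 : ‖Φ a‖ ≤ 1 := by
      simp only [hΦ]
      rw [norm_mul, norm_prod, norm_prod]
      refine mul_le_one₀ ?_ (Finset.prod_nonneg fun _ _ => norm_nonneg _) ?_
      · exact Finset.prod_le_one (fun _ _ => norm_nonneg _) fun l _ => hF l _
      · exact Finset.prod_le_one (fun _ _ => norm_nonneg _) fun l _ => hm l
    calc _ ≤ 1 * ε j := mul_le_mul h5 (h j _) (norm_nonneg _) zero_le_one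
      _ = ε j := one_mul _
  have hall : ∀ s : Finset ι, ‖X s - X ∅‖ ≤ ∑ j ∈ s, ε j := by
    intro s
    induction s using Finset.induction with
    | empty => simp
    | insert j s hj ih =>
      rw [Finset.sum_insert hj]
      have h1 := hstep s j hj
      have h2 := norm_add_le (X (insert j s) - X s) (X s - X ∅)
      rw [sub_add_sub_cancel] at h2
      linarith
  have h := hall Finset.univ
  have e1 : X Finset.univ - X ∅ = (mean fun a : A => ∏ j, F j (a.1 j * b j)) - ∏ j, m j := by
    simp only [hX, Finset.compl_univ, Finset.prod_empty, mul_one, Finset.compl_empty, one_mul]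
    congr 1
    unfold mean
    rw [Finset.sum_const, Finset.card_univ, nsmul_eq_mul, mul_div_cancel_left₀ _ hA]
  rwa [e1] at h

end

section
variable {ι : Type} [Fintype ι] [DecidableEq ι] {G : ι → Type} [∀ j, CommGroup (G j)]

/-- For any two coordinates `A` is stable under the inversion of some coordinates, among them the first,
not the second of the two. -/
def Signs (A : Subgroup (∀ j, G j)) : Prop :=
  ∀ j l, j ≠ l → ∃ s : ι → ℤˣ, s j = -1 ∧ s l = 1 ∧ ∀ a ∈ A, (fun i => a i ^ (s i : ℤ)) ∈ A

theorem pow_mem {A : Subgroup (∀ j, G j)} (hA : Signs A) {a : ∀ j, G j} (ha : a ∈ A) (j : ι) :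
    a j ^ 2 ^ (Fintype.card ι - 1) ∈ factor A j := by
  have h : ∀ S : Finset ι, j ∉ S → ∃ c ∈ A, c j = a j ^ 2 ^ S.card ∧ ∀ l ∈ S, c l = 1 := by
    intro S
    induction S using Finset.induction with
    | empty => exact fun _ => ⟨a, ha, by simp, by simp⟩
    | insert l S hl ih =>
      intro hj
      rw [Finset.mem_insert, not_or] at hj
      obtain ⟨c, hc, hcj, hcS⟩ := ih hj.2
      obtain ⟨s, hsj, hsl, hs⟩ := hA j l hj.1
      refine ⟨c * (fun i => c i ^ (s i : ℤ))⁻¹, A.mul_mem hc (A.inv_mem (hs c hc)), ?_, ?_⟩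
      · rw [Pi.mul_apply, Pi.inv_apply, hsj, Finset.card_insert_of_notMem hl, hcj]
        simp only [Units.val_neg, Units.val_one, zpow_neg, zpow_one, inv_inv]
        rw [← pow_add, pow_succ, mul_two]
      · intro i hi
        rw [Pi.mul_apply, Pi.inv_apply]
        rcases Finset.mem_insert.1 hi with rfl | hi
        · rw [hsl, Units.val_one, zpow_one, mul_inv_cancel]
        · rw [hcS i hi, one_zpow, inv_one, mul_one]
  obtain ⟨c, hc, hcj, hcS⟩ := h (Finset.univ.erase j) (Finset.notMem_erase _ _)
  rw [Finset.card_erase_of_mem (Finset.mem_univ j), Finset.card_univ] at hcj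
  rw [mem_factor, ← hcj]
  have : Pi.mulSingle j (c j) = c := by
    funext l
    by_cases hl : l = j
    · subst hl
      rw [Pi.mulSingle_eq_same]
    · rw [Pi.mulSingle_eq_of_ne hl, hcS l (Finset.mem_erase.2 ⟨hl, Finset.mem_univ l⟩)]
  rw [this]
  exact hc

/-- the number of the elements killed by `N` -/
noncomputable def tor (H : Type) [CommGroup H] (N : ℕ) : ℕ := Nat.card {g : H // g ^ N = 1}

theorem tor_pos (H : Type) [CommGroup H] [Finite H] (N : ℕ) : 0 < tor H N := by
  haveI : Nonempty {g : H // g ^ N = 1} := ⟨⟨1, one_pow _⟩⟩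
  exact Nat.card_pos

theorem index_le [∀ j, Finite (G j)] {A : Subgroup (∀ j, G j)} (hA : Signs A) {κ : ℕ} (j : ι)
    (hκ : (A.map (Pi.evalMonoidHom G j)).index ≤ κ) :
    (factor A j).index ≤ κ * tor (G j) (2 ^ (Fintype.card ι - 1)) := by
  set N := 2 ^ (Fintype.card ι - 1) with hN
  set P := A.map (Pi.evalMonoidHom G j) with hP
  set f : P →* G j := (powMonoidHom N : G j →* G j).comp P.subtype with hf
  have hle : f.range ≤ factor A j := by
    rintro _ ⟨⟨_, a, ha, rfl⟩, rfl⟩
    exact pow_mem hA ha j
  have h1 : (factor A j).index ≤ f.range.index :=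
    Nat.le_of_dvd (Nat.pos_of_ne_zero Subgroup.index_ne_zero_of_finite)
      (Subgroup.index_dvd_of_le hle)
  have h2 : Nat.card f.range * f.range.index = Nat.card (G j) := Subgroup.card_mul_index _
  have h3 : Nat.card P * P.index = Nat.card (G j) := Subgroup.card_mul_index _
  have h4 : Nat.card f.ker * Nat.card f.range = Nat.card P := by
    rw [← Subgroup.index_ker f]
    exact Subgroup.card_mul_index f.ker
  have h5 : Nat.card f.ker ≤ tor (G j) N := by
    refine Nat.card_le_card_of_injective (fun x : f.ker => (⟨(x.1 : G j), ?_⟩ :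
      {g : G j // g ^ N = 1})) ?_
    · exact (MonoidHom.mem_ker).1 x.2
    · intro x y hxy
      have h7 : (x.1 : G j) = y.1 := congrArg (fun t : {g : G j // g ^ N = 1} => (t : G j)) hxy
      exact Subtype.ext (Subtype.ext h7)
  have hpos : 0 < Nat.card f.range := Nat.card_pos
  have h6 : Nat.card f.range * f.range.index ≤ Nat.card f.range * (κ * tor (G j) N) := by
    calc Nat.card f.range * f.range.index = Nat.card f.ker * Nat.card f.range * P.index := by
          rw [h2, h4, h3]
      _ ≤ tor (G j) N * Nat.card f.range * κ := by gcongr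
      _ = _ := by ring
  exact h1.trans (Nat.le_of_mul_le_mul_left h6 hpos)

end

end Pool.Agent.X208.CM
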