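import Pool.Agent.X208.CM.All

/-! Pairwise different fields. -/

set_option autoImplicit false

namespace Pool.Agent.X208.CM

open Filter Topology MeasureTheory
open scoped UpperHalfPlane MatrixGroups ComplexConjugate

/-- `S` is uniformly dense in the tests, with common bounds for the supports (for instance the smooth tests). -/
def DenseTests (S : Set C(ℍ, ℂ)) : Prop :=
  ∀ N, ∃ N', ∀ f ∈ T N, ∀ δ : ℝ, 0 < δ → ∃ g ∈ S, g ∈ T N' ∧ ∀ z, ‖f z - g z‖ ≤ δ

/-- The twisted Weyl sums of the tests in `S` are small compared with `1 / |Cl[N]|`. -/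
def FastWeyl (S : Set C(ℍ, ℂ)) (N : ℕ) (R : ℕ → Type) [∀ i, CommRing (R i)] [∀ i, IsDomain (R i)]
    [∀ i, Fintype (ClassGroup (R i))] (φ : ∀ i, ClassGroup (R i) → ℍ) : Prop :=
  ∀ f ∈ S, IsTest f → ∀ ε : ℝ, 0 < ε →
    ∀ᶠ i in atTop, Weyl (fun C => f (φ i C) - hyp f) (ε / tor (ClassGroup (R i)) N)

theorem weyl_mono {G : Type} [CommGroup G] [Fintype G] {f : G → ℂ} {w w' : ℝ} (h : Weyl f w)
    (hw : w ≤ w') : Weyl f w' := fun ψ => (h ψ).trans hw

theorem hyp_le_add {G : Type} [CommGroup G] [Fintype G] (φ : G → ℍ) {f : ℍ → ℂ} (hf : IsTest f)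
    {ε : ℝ} (h : Weyl (fun c => f (φ c) - hyp f) ε) : ‖hyp f‖ ≤ 1 + ε := by
  have h1 := h 0
  have h2 : (mean fun c => (f (φ c) - hyp f) * (0 : AddChar (Additive G) ℂ)
      (Additive.ofMul c)) = (mean fun c => f (φ c)) - hyp f := by
    unfold mean
    have h0 : (Fintype.card G : ℂ) ≠ 0 := by exact_mod_cast Fintype.card_ne_zero
    simp only [AddChar.zero_apply, mul_one]
    rw [Finset.sum_sub_distrib, Finset.sum_const, Finset.card_univ, nsmul_eq_mul, sub_div,
      mul_div_cancel_left₀ _ h0]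
  rw [h2] at h1
  have h3 : ‖mean fun c => f (φ c)‖ ≤ 1 := mean_le zero_le_one fun c => hf.2.2.2 _
  have h4 : ‖hyp f‖ ≤ ‖mean fun c => f (φ c)‖ + ‖(mean fun c => f (φ c)) - hyp f‖ := by
    have := norm_sub_le (mean fun c => f (φ c)) ((mean fun c => f (φ c)) - hyp f)
    rwa [sub_sub_cancel] at this
  linarith

section
variable {n : ℕ} {R : Fin n → ℕ → Type} [∀ j i, CommRing (R j i)] [∀ j i, IsDomain (R j i)]
  [∀ j i, Fintype (ClassGroup (R j i))] {φ : ∀ j i, ClassGroup (R j i) → ℍ}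

theorem equi_of_fast {S : Set C(ℍ, ℂ)} (hS : DenseTests S)
    (h : ∀ j, FastWeyl S (2 ^ (n - 1)) (R j) (φ j)) {κ : ℕ}
    (A : ∀ i, Subgroup (∀ j, ClassGroup (R j i))) [∀ i, Fintype (A i)]
    (hA : ∀ i, BlockSigns (fun j : Fin n => j) (A i))
    (hκ : ∀ i j, ((A i).map (Pi.evalMonoidHom (fun j => ClassGroup (R j i)) j)).index ≤ κ)
    (b : ∀ i j, ClassGroup (R j i)) : Equi fun i (a : A i) j => φ j i (a.1 j * b i j) := by
  classical
  refine equi_of_family (K := S) (g := fun f => f.1) (fun N => ?_) _ fun e he => ?_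
  · obtain ⟨N', hN'⟩ := hS N
    refine ⟨N', fun f hf δ hδ => ?_⟩
    obtain ⟨g, hgS, hgT, hg⟩ := hN' f hf δ hδ
    exact ⟨⟨g, hgS⟩, hgT, hg⟩
  have hft : ∀ j, IsTest (e j).1 := fun j => (he j).elim fun N hN => isTest_of_T hN
  have htor : ∀ i j, (1 : ℝ) ≤ tor (ClassGroup (R j i)) (2 ^ (n - 1)) := fun i j => by
    exact_mod_cast tor_pos (ClassGroup (R j i)) (2 ^ (n - 1))
  have hhyp : ∀ j, ‖hyp (e j).1‖ ≤ 1 := by
    intro j
    refine le_of_forall_pos_le_add fun ε hε => ?_
    obtain ⟨i, hi⟩ := (h j (e j).1 (e j).2 (hft j) ε hε).exists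
    exact hyp_le_add (φ j i) (hft j) (weyl_mono hi (div_le_self hε.le (htor i j)))
  rw [Metric.tendsto_atTop]
  intro ε hε
  set η : ℝ := ε / (2 * (1 + n * κ)) with hη
  have hη0 : 0 < η := by positivity
  have hev : ∀ᶠ i in atTop, ∀ j, Weyl (fun C => (e j).1 (φ j i C) - hyp (e j).1)
      (η / tor (ClassGroup (R j i)) (2 ^ (n - 1))) :=
    eventually_all.2 fun j => h j (e j).1 (e j).2 (hft j) η hη0
  obtain ⟨i0, hi0⟩ := eventually_atTop.1 hev
  refine ⟨i0, fun i hi => ?_⟩
  rw [dist_zero_right]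
  have hp := peel (A i) (fun j C => (e j).1 (φ j i C)) (fun j C => (hft j).2.2.2 _)
    (fun j => hyp (e j).1) hhyp (fun _ => κ * η) (fun j g => ?_) (b i)
  · refine lt_of_le_of_lt hp ?_
    rw [Finset.sum_const, Finset.card_univ, Fintype.card_fin, nsmul_eq_mul]
    have h8 : η * (2 * (1 + n * κ)) = ε := by
      rw [hη]
      field_simp
    nlinarith
  · have h1 := coset_le (factor (A i) j) (fun C => (e j).1 (φ j i C) - hyp (e j).1) (hi0 i hi j) g
    have h2 : (mean fun c : factor (A i) j => (e j).1 (φ j i (c * g)) - hyp (e j).1) =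
        (mean fun c : factor (A i) j => (e j).1 (φ j i (c * g)) - hyp (e j).1) := rfl
    refine h1.trans ?_
    have h3 := index_le (hA i) j (hκ i j)
    rw [Fintype.card_fin] at h3
    have h4 : ((factor (A i) j).index : ℝ) ≤
        κ * tor (ClassGroup (R j i)) (2 ^ (n - 1)) := by exact_mod_cast h3
    have ht := htor i j
    calc ((factor (A i) j).index : ℝ) * (η / tor (ClassGroup (R j i)) (2 ^ (n - 1))) ≤
        (κ * tor (ClassGroup (R j i)) (2 ^ (n - 1))) *
          (η / tor (ClassGroup (R j i)) (2 ^ (n - 1))) :=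
          mul_le_mul_of_nonneg_right h4 (by positivity)
      _ = κ * η := by
          field_simp

end

/-- The projections of `A` have index at most `κ`. -/
def ProjIndex {ι : Type} {G : ι → Type} [∀ j, CommGroup (G j)] (A : Subgroup (∀ j, G j)) (κ : ℕ) :
    Prop := ∀ j, (A.map (Pi.evalMonoidHom G j)).index ≤ κ

section
variable {n : ℕ} (R : Fin n → ℕ → Type) [∀ j i, CommRing (R j i)] [∀ j i, IsDomain (R j i)]
  [∀ j i, Fintype (ClassGroup (R j i))] (φ : ∀ j i, ClassGroup (R j i) → ℍ)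

/-- The orbits of ALL sequences of tuples under the subgroups `A i` equidistribute. -/
def AllOrbits (A : ∀ i, Subgroup (∀ j, ClassGroup (R j i))) [∀ i, Fintype (A i)] : Prop :=
  ∀ b : ∀ i j, ClassGroup (R j i), Equi fun i (a : A i) j => φ j i (a.1 j * b i j)

/-- Pairwise different fields: if the twisted Weyl sums decrease faster than `1 / |Cl[2 ^ (n - 1)]|`, the orbits
of all tuples equidistribute, for all groups `A i` which are stable under the sign changes and have
projections of index at most `κ`. -/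
def DifferentFields : Prop :=
  ∀ S : Set C(ℍ, ℂ), DenseTests S → (∀ j, FastWeyl S (2 ^ (n - 1)) (R j) (φ j)) →
    ∀ (κ : ℕ) (A : ∀ i, Subgroup (∀ j, ClassGroup (R j i))) [∀ i, Fintype (A i)],
    (∀ i, BlockSigns (fun j : Fin n => j) (A i) ∧ ProjIndex (A i) κ) → AllOrbits R φ A

/-- Reduction to blocks of coordinates (for Galois groups: to tuples with CM by one field). -/
def Reduction {r : ℕ} (blk : Fin n → Fin r) : Prop :=
  ∀ (A : ∀ i, Subgroup (∀ j, ClassGroup (R j i))) [∀ i, Fintype (A i)]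
    [∀ i k, Fintype (blockPart blk (A i) k)], (∀ i, BlockSigns blk (A i)) →
    (∀ i, BlockPowers blk (A i)) ∧ ((∀ k, BlockLaw blk R φ A k) → AllOrbits R φ A)

theorem differentFields : DifferentFields R φ :=
  fun _ hS h _ A _ hA b => equi_of_fast hS h A (fun i => (hA i).1) (fun i => (hA i).2) b

theorem reduction {r : ℕ} (blk : Fin n → Fin r) : Reduction R φ blk :=
  fun _ _ _ hA => ⟨fun i => blockPowers blk (hA i), fun h b => equi_of_blocks h b⟩

end

/-- One sequence of orders. -/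
def OneSequence : Prop :=
  ∀ (R : ℕ → Type) [∀ i, CommRing (R i)] [∀ i, IsDomain (R i)] [∀ i, Fintype (ClassGroup (R i))]
    (φ : ∀ i, ClassGroup (R i) → ℍ), (∀ i, IsCM (R i) (φ i)) →
    (WeylLaw R φ ↔ (TupleLaw R φ 1 ∧ TupleLaw R φ 2)) ∧
    (WeylLaw R φ ↔ ∀ n : ℕ, AlmostAll (fun _ : Fin n => R) (fun _ => φ))

/-- `n` sequences of orders. -/
def ManySequences : Prop :=
  ∀ (n : ℕ) (R : Fin n → ℕ → Type) [∀ j i, CommRing (R j i)] [∀ j i, IsDomain (R j i)]
    [∀ j i, Fintype (ClassGroup (R j i))] (φ : ∀ j i, ClassGroup (R j i) → ℍ),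
    (∀ j i, IsCM (R j i) (φ j i)) →
    ((∀ j, TupleLaw (R j) (φ j) 1 ∧ TupleLaw (R j) (φ j) 2) → AlmostAll R φ) ∧
    (∀ (r : ℕ) (blk : Fin n → Fin r), Reduction R φ blk) ∧ DifferentFields R φ

theorem oneSequence : OneSequence := fun _ _ _ _ _ _ => criterion

theorem manySequences : ManySequences := fun _ R _ _ _ φ _ =>
  ⟨fun h => almostAll (general fun j => weyl_of_tuple (h j).1 (h j).2),
    fun _ blk => reduction R φ blk, differentFields R φ⟩

end Pool.Agent.X208.CM
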