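import Pool.Agent.X208.CM.Approx

/-! Equidistribution of almost all sequences of tuples, for all test functions on the product. -/

set_option autoImplicit false

namespace Pool.Agent.X208.CM

open Filter Topology MeasureTheory Set
open scoped UpperHalfPlane MatrixGroups ComplexConjugate

/-- The mean of `F` for the product of the hyperbolic probability measures. -/
noncomputable def hypN {n : ℕ} (F : (Fin n → ℍ) → ℂ) : ℂ :=
  ((3 / Real.pi : ℝ) : ℂ) ^ n * ∫ z in Set.univ.pi fun _ : Fin n => ModularGroup.fd, F z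

/-- The orbits `x i` become equidistributed on the product: weak-star convergence of the normalised counting
measures of the orbits to the product of the hyperbolic probability measures. -/
def Equi {n : ℕ} {A : ℕ → Type} [∀ i, Fintype (A i)] (x : ∀ i, A i → Fin n → ℍ) : Prop :=
  ∀ F : (Fin n → ℍ) → ℂ, IsTestN F → Tendsto (fun i => mean fun a => F (x i a)) atTop (𝓝 (hypN F))

theorem hypN_prod {n : ℕ} (f : Fin n → ℍ → ℂ) :
    hypN (fun z => ∏ j, f j (z j)) = ∏ j, hyp (f j) := by
  unfold hypN hyp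
  rw [volume_pi, Measure.restrict_pi_pi, integral_fintype_prod_eq_prod, Finset.prod_mul_distrib,
    Finset.prod_const, Finset.card_univ, Fintype.card_fin]

/-- vanishing above the height `N` -/
def Van {n : ℕ} (N : ℕ) (F : (Fin n → ℍ) → ℂ) : Prop :=
  ∀ z : Fin n → ℍ, (∀ j, z j ∈ ModularGroup.fd) → (∃ j, (N : ℝ) < (z j).im) → F z = 0

/-- the truncated product -/
def TN (n N : ℕ) : Set (Fin n → ℍ) :=
  Set.univ.pi fun _ => ModularGroup.truncatedFundamentalDomain (N : ℝ)

theorem TN_compact (n N : ℕ) : IsCompact (TN n N) :=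
  isCompact_univ_pi fun _ => ModularGroup.isCompact_truncatedFundamentalDomain _

theorem hypN_eq {n N : ℕ} {F : (Fin n → ℍ) → ℂ} (h : Van N F) :
    hypN F = ((3 / Real.pi : ℝ) : ℂ) ^ n * ∫ z in TN n N, F z := by
  unfold hypN
  congr 1
  refine setIntegral_eq_of_subset_of_forall_diff_eq_zero
    (MeasurableSet.univ_pi fun _ => ModularGroup.isClosed_fd.measurableSet)
    (Set.pi_mono fun _ _ z hz => hz.1) fun z hz => ?_
  refine h z (fun j => hz.1 j (mem_univ j)) ?_
  by_contra hcon
  push Not at hcon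
  exact hz.2 fun j _ => ⟨hz.1 j (mem_univ j), hcon j⟩

theorem integrableOn_TN {n N : ℕ} {F : (Fin n → ℍ) → ℂ} (hF : Continuous F) :
    IntegrableOn F (TN n N) := hF.continuousOn.integrableOn_compact (TN_compact n N)

theorem hypN_sub_le {n N : ℕ} {F G : (Fin n → ℍ) → ℂ} (hF : Continuous F) (hG : Continuous G)
    (hF0 : Van N F) (hG0 : Van N G) {δ : ℝ} (h : ∀ z, ‖F z - G z‖ ≤ δ) :
    ‖hypN F - hypN G‖ ≤ (3 / Real.pi) ^ n * (δ * (volume (TN n N)).toReal) := by
  rw [hypN_eq hF0, hypN_eq hG0, ← mul_sub, ← integral_sub (integrableOn_TN hF) (integrableOn_TN hG),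
    norm_mul, norm_pow, Complex.norm_real, Real.norm_of_nonneg (by positivity)]
  refine mul_le_mul_of_nonneg_left ?_ (by positivity)
  exact norm_setIntegral_le_of_norm_le_const (TN_compact n N).measure_lt_top fun z _ => h z

theorem hypN_sum {n N : ℕ} {ι : Type} [Fintype ι] (c : ι → ℂ) (H : ι → (Fin n → ℍ) → ℂ)
    (hc : ∀ k, Continuous (H k)) (h0 : ∀ k, Van N (H k)) :
    hypN (fun z => ∑ k, c k * H k z) = ∑ k, c k * hypN (H k) := by
  have hv : Van N (fun z => ∑ k, c k * H k z) := fun z hz hj =>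
    Finset.sum_eq_zero fun k _ => by rw [h0 k z hz hj, mul_zero]
  rw [hypN_eq hv, integral_finset_sum _ fun k _ => (integrableOn_TN (hc k)).const_mul (c k),
    Finset.mul_sum]
  refine Finset.sum_congr rfl fun k _ => ?_
  rw [hypN_eq (h0 k), integral_const_mul]
  ring

theorem share_le_sum {B : Type} [Finite B] (m : ℕ) (P : ℕ → B → Prop) :
    share (fun b => ∃ k < m, P k b) ≤ ∑ k ∈ Finset.range m, share (P k) := by
  classical
  have := Fintype.ofFinite B
  simp only [share_eq]
  rw [← Finset.sum_div]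
  refine div_le_div_of_nonneg_right ?_ (Nat.cast_nonneg _)
  rw [← Nat.cast_sum]
  refine Nat.cast_le.2 (le_trans (Finset.card_le_card (t := (Finset.range m).biUnion fun k =>
    Finset.univ.filter (P k)) fun b hb => ?_) Finset.card_biUnion_le)
  rw [Finset.mem_filter] at hb
  obtain ⟨-, k, hk, hP⟩ := hb
  exact Finset.mem_biUnion.2 ⟨k, Finset.mem_range.2 hk, Finset.mem_filter.2 ⟨Finset.mem_univ _, hP⟩⟩

/-- the diagonal argument -/
theorem diag {B : ℕ → Type} [∀ i, Finite (B i)] (T : ℕ → ∀ i, B i → ℂ)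
    (h : ∀ k, ∀ ε : ℝ, 0 < ε → Tendsto (fun i => share fun b : B i => ε < ‖T k i b‖) atTop (𝓝 0)) :
    ∃ E : ∀ i, Set (B i), Tendsto (fun i => share fun b => b ∈ E i) atTop (𝓝 0) ∧
      ∀ b : ∀ i, B i, (∀ᶠ i in atTop, b i ∉ E i) →
        ∀ k, Tendsto (fun i => T k i (b i)) atTop (𝓝 0) := by
  classical
  set s : ℕ → ℕ → ℝ := fun m i => share fun b : B i => ∃ k < m, 1 / ((m : ℝ) + 1) < ‖T k i b‖ with hs
  have h1 : ∀ m, ∀ᶠ i in atTop, s m i ≤ 1 / ((m : ℝ) + 1) := by
    intro m
    have h2 : Tendsto (fun i => ∑ k ∈ Finset.range m, share fun b : B i =>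
        1 / ((m : ℝ) + 1) < ‖T k i b‖) atTop (𝓝 0) := by
      have := tendsto_finsetSum (Finset.range m) fun k _ => h k (1 / ((m : ℝ) + 1)) (by positivity)
      simpa using this
    have h3 := h2.eventually_lt_const (by positivity : (0 : ℝ) < 1 / ((m : ℝ) + 1))
    filter_upwards [h3] with i hi
    exact (share_le_sum m fun k b => 1 / ((m : ℝ) + 1) < ‖T k i b‖).trans hi.le
  have h0 : ∀ i, s 0 i ≤ 1 / (((0 : ℕ) : ℝ) + 1) := by
    intro i
    have : s 0 i = 0 := by
      have := Fintype.ofFinite (B i)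
      simp only [hs]
      rw [share_eq]
      simp
    rw [this]
    positivity
  set M : ℕ → ℕ := fun i => Nat.findGreatest (fun m => s m i ≤ 1 / ((m : ℝ) + 1)) i with hM
  have hMs : ∀ i, s (M i) i ≤ 1 / ((M i : ℝ) + 1) := fun i =>
    Nat.findGreatest_spec (P := fun m => s m i ≤ 1 / ((m : ℝ) + 1)) (Nat.zero_le i) (h0 i)
  have hMt : Tendsto M atTop atTop := by
    refine tendsto_atTop.2 fun m => ?_
    filter_upwards [h1 m, eventually_ge_atTop m] with i hi him
    exact Nat.le_findGreatest him hi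
  have hM1 : Tendsto (fun i => 1 / ((M i : ℝ) + 1)) atTop (𝓝 0) :=
    tendsto_one_div_add_atTop_nhds_zero_nat.comp hMt
  refine ⟨fun i => {b | ∃ k < M i, 1 / ((M i : ℝ) + 1) < ‖T k i b‖}, ?_, fun b hb k => ?_⟩
  · exact squeeze_zero (fun i => share_nonneg _) hMs hM1
  · rw [tendsto_zero_iff_norm_tendsto_zero]
    refine squeeze_zero' (Eventually.of_forall fun _ => norm_nonneg _) ?_ hM1
    filter_upwards [hb, hMt.eventually_gt_atTop k] with i hi hk
    by_contra hcon
    exact hi ⟨k, hk, not_le.1 hcon⟩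

end Pool.Agent.X208.CM
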