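import Mathlib

/-! Fourier analysis on a finite abelian group: the mean square of a correlation. -/

set_option autoImplicit false

namespace Pool.Agent.X208.CM

open Finset

section
variable {G : Type} [CommGroup G] [Fintype G]

/-- Parseval -/
theorem parseval (f : G → ℂ) :
    ∑ ψ : AddChar (Additive G) ℂ, ‖∑ a, f a * ψ (Additive.ofMul a)‖ ^ 2 =
      Fintype.card G * ∑ a, ‖f a‖ ^ 2 := by
  classical
  have h1 : ∀ ψ : AddChar (Additive G) ℂ, ((‖∑ a, f a * ψ (Additive.ofMul a)‖ ^ 2 : ℝ) : ℂ) =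
      ∑ a, ∑ b, f a * (starRingEnd ℂ) (f b) * ψ (Additive.ofMul a - Additive.ofMul b) := by
    intro ψ
    rw [Complex.ofReal_pow, ← Complex.mul_conj', map_sum, Finset.sum_mul_sum]
    refine Finset.sum_congr rfl fun a _ => Finset.sum_congr rfl fun b _ => ?_
    rw [map_mul, ← AddChar.map_neg_eq_conj, sub_eq_add_neg, AddChar.map_add_eq_mul]
    ring
  have h2 : ((∑ ψ : AddChar (Additive G) ℂ, ‖∑ a, f a * ψ (Additive.ofMul a)‖ ^ 2 : ℝ) : ℂ) =
      ((Fintype.card G * ∑ a, ‖f a‖ ^ 2 : ℝ) : ℂ) := by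
    rw [Complex.ofReal_sum, Finset.sum_congr rfl fun ψ _ => h1 ψ, Finset.sum_comm]
    rw [Finset.sum_congr rfl fun a _ => Finset.sum_comm]
    have h3 : ∀ a b : G, ∑ ψ : AddChar (Additive G) ℂ,
        f a * (starRingEnd ℂ) (f b) * ψ (Additive.ofMul a - Additive.ofMul b) =
        if a = b then (Fintype.card G : ℂ) * (f a * (starRingEnd ℂ) (f b)) else 0 := by
      intro a b
      rw [← Finset.mul_sum, AddChar.sum_apply_eq_ite]
      by_cases hab : a = b
      · have hc : Fintype.card (Additive G) = Fintype.card G := Fintype.card_congr Additive.toMul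
        rw [if_pos hab, if_pos (by rw [hab, sub_self]), mul_comm, hc]
      · rw [if_neg hab, if_neg, mul_zero]
        intro h0
        exact hab (Additive.ofMul.injective (sub_eq_zero.1 h0))
    simp only [h3]
    rw [Complex.ofReal_mul, Complex.ofReal_sum, Finset.mul_sum]
    refine Finset.sum_congr rfl fun a _ => ?_
    rw [Finset.sum_ite_eq, if_pos (Finset.mem_univ _), Complex.ofReal_pow, ← Complex.mul_conj']
    norm_cast
  exact_mod_cast h2

/-- the transform of a correlation -/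
theorem transform (F f : G → ℂ) (ψ : AddChar (Additive G) ℂ) :
    ∑ b, (∑ g, F g * f (g * b)) * ψ (Additive.ofMul b) =
      (∑ g, F g * ψ (- Additive.ofMul g)) * ∑ c, f c * ψ (Additive.ofMul c) := by
  simp only [Finset.sum_mul]
  rw [Finset.sum_comm]
  refine Finset.sum_congr rfl fun g _ => ?_
  rw [Finset.mul_sum]
  refine Fintype.sum_equiv (Equiv.mulLeft g) _ _ fun b => ?_
  simp only [Equiv.coe_mulLeft]
  have h : ψ (Additive.ofMul b) = ψ (- Additive.ofMul g) * ψ (Additive.ofMul (g * b)) := by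
    rw [← AddChar.map_add_eq_mul]
    congr 1
    rw [ofMul_mul, neg_add_cancel_left]
  rw [h]
  ring

/-- the mean square of a correlation -/
theorem corr_le (F f : G → ℂ) {w : ℝ} (hw : ∀ ψ : AddChar (Additive G) ℂ,
    ‖∑ c, f c * ψ (Additive.ofMul c)‖ ≤ w * Fintype.card G) :
    ∑ b, ‖∑ g, F g * f (g * b)‖ ^ 2 ≤ w ^ 2 * (Fintype.card G) ^ 2 * ∑ g, ‖F g‖ ^ 2 := by
  have hG : (0 : ℝ) < Fintype.card G := by exact_mod_cast Fintype.card_pos
  have h1 := parseval (fun b => ∑ g, F g * f (g * b))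
  have h2 := parseval F
  have h3 : ∑ ψ : AddChar (Additive G) ℂ, ‖∑ g, F g * ψ (- Additive.ofMul g)‖ ^ 2 =
      Fintype.card G * ∑ a, ‖F a‖ ^ 2 := by
    rw [← h2]
    refine Fintype.sum_equiv (Equiv.neg (AddChar (Additive G) ℂ)) _ _ fun ψ => ?_
    congr 2
  have h4 : ∑ ψ : AddChar (Additive G) ℂ, ‖∑ b, (∑ g, F g * f (g * b)) * ψ (Additive.ofMul b)‖ ^ 2 ≤
      (w * Fintype.card G) ^ 2 * (Fintype.card G * ∑ a, ‖F a‖ ^ 2) := by
    rw [← h3, Finset.mul_sum]
    refine Finset.sum_le_sum fun ψ _ => ?_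
    rw [transform, norm_mul, mul_pow, mul_comm]
    refine mul_le_mul_of_nonneg_right ?_ (sq_nonneg _)
    exact pow_le_pow_left₀ (norm_nonneg _) (hw ψ) 2
  rw [h1] at h4
  have h5 : (Fintype.card G : ℝ) * (∑ b, ‖∑ g, F g * f (g * b)‖ ^ 2) ≤
      Fintype.card G * (w ^ 2 * (Fintype.card G) ^ 2 * ∑ g, ‖F g‖ ^ 2) := by
    refine h4.trans (le_of_eq ?_)
    ring
  exact le_of_mul_le_mul_left h5 hG

/-- the converse: one Weyl sum is bounded by the mean square of the autocorrelation -/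
theorem weyl_le (f : G → ℂ) (ψ : AddChar (Additive G) ℂ) :
    ‖∑ c, f c * ψ (Additive.ofMul c)‖ ^ 4 ≤
      Fintype.card G * ∑ b, ‖∑ g, f g * (starRingEnd ℂ) (f (g * b))‖ ^ 2 := by
  have h1 := parseval (fun b => ∑ g, f g * (starRingEnd ℂ) (f (g * b)))
  rw [← h1]
  have h2 := transform f (fun c => (starRingEnd ℂ) (f c)) (-ψ)
  have h3 : ∑ g, f g * (-ψ) (- Additive.ofMul g) = ∑ c, f c * ψ (Additive.ofMul c) := by
    refine Finset.sum_congr rfl fun g _ => ?_
    simp
  have h4 : ∑ c, (starRingEnd ℂ) (f c) * (-ψ) (Additive.ofMul c) =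
      (starRingEnd ℂ) (∑ c, f c * ψ (Additive.ofMul c)) := by
    rw [map_sum]
    refine Finset.sum_congr rfl fun c _ => ?_
    rw [map_mul, AddChar.neg_apply, AddChar.map_neg_eq_conj]
  rw [h3, h4] at h2
  have h5 : ‖∑ c, f c * ψ (Additive.ofMul c)‖ ^ 4 =
      ‖∑ b, (∑ g, f g * (starRingEnd ℂ) (f (g * b))) * (-ψ) (Additive.ofMul b)‖ ^ 2 := by
    rw [h2, norm_mul, Complex.norm_conj]
    ring
  rw [h5]
  exact Finset.single_le_sum (f := fun ψ' : AddChar (Additive G) ℂ =>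
    ‖∑ b, (∑ g, f g * (starRingEnd ℂ) (f (g * b))) * ψ' (Additive.ofMul b)‖ ^ 2)
    (fun _ _ => sq_nonneg _) (Finset.mem_univ (-ψ))

end

end Pool.Agent.X208.CM
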