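import Pool.Agent.X208.CM.Four

/-! Mean squares over translations. -/

set_option autoImplicit false

namespace Pool.Agent.X208.CM

open Finset

/-- The mean of a function on a finite set. -/
noncomputable def mean {A : Type} [Fintype A] (f : A → ℂ) : ℂ := (∑ a, f a) / Fintype.card A

/-- All Weyl sums of `f`, twisted by the characters of the group, are at most `w`. -/
def Weyl {G : Type} [CommGroup G] [Fintype G] (f : G → ℂ) (w : ℝ) : Prop :=
  ∀ ψ : AddChar (Additive G) ℂ, ‖mean fun c => f c * ψ (Additive.ofMul c)‖ ≤ w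

open Classical in
/-- The fibres of `π` have at most `κ` times the average size. -/
def Spread {A G : Type} [Fintype A] [Fintype G] (π : A → G) (κ : ℝ) : Prop :=
  ∀ g, ((univ.filter fun a => π a = g).card : ℝ) * Fintype.card G ≤ κ * Fintype.card A

section
variable {G : Type} [CommGroup G] [Fintype G] {A : Type} [Fintype A] [Nonempty A]

theorem one (π : A → G) {κ : ℝ} (hπ : Spread π κ) (F : A → ℂ) (hF : ∀ a, ‖F a‖ ≤ 1) (f : G → ℂ)
    {w : ℝ} (hw : Weyl f w) :
    ∑ b, ‖mean fun a => F a * f (π a * b)‖ ^ 2 ≤ κ * w ^ 2 * Fintype.card G := by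
  classical
  have hG : (0 : ℝ) < Fintype.card G := by exact_mod_cast Fintype.card_pos
  have hA : (0 : ℝ) < Fintype.card A := by exact_mod_cast Fintype.card_pos
  set F' : G → ℂ := fun g => ∑ a ∈ univ.filter (fun a => π a = g), F a with hF'
  have h1 : ∀ b, ∑ a, F a * f (π a * b) = ∑ g, F' g * f (g * b) := by
    intro b
    rw [← Finset.sum_fiberwise (s := univ) (g := π)]
    refine Finset.sum_congr rfl fun g _ => ?_
    rw [hF', Finset.sum_mul]
    refine Finset.sum_congr rfl fun a ha => ?_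
    rw [(Finset.mem_filter.1 ha).2]
  have h2 : ∀ ψ : AddChar (Additive G) ℂ, ‖∑ c, f c * ψ (Additive.ofMul c)‖ ≤
      w * Fintype.card G := by
    intro ψ
    have := hw ψ
    unfold mean at this
    rw [norm_div, Complex.norm_natCast, div_le_iff₀ hG] at this
    exact this
  have h3 : ∑ g, ‖F' g‖ ^ 2 ≤ κ * (Fintype.card A : ℝ) ^ 2 / Fintype.card G := by
    have h4 : ∀ g, ‖F' g‖ ^ 2 ≤ ((univ.filter fun a => π a = g).card : ℝ) *
        (κ * Fintype.card A / Fintype.card G) := by
      intro g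
      have h5 : ‖F' g‖ ≤ ((univ.filter fun a => π a = g).card : ℝ) := by
        refine (norm_sum_le _ _).trans ((Finset.sum_le_sum fun a _ => hF a).trans (le_of_eq ?_))
        rw [Finset.sum_const, nsmul_eq_mul, mul_one]
      have h6 : ((univ.filter fun a => π a = g).card : ℝ) ≤ κ * Fintype.card A / Fintype.card G := by
        rw [le_div_iff₀ hG]
        convert hπ g
      calc ‖F' g‖ ^ 2 ≤ ((univ.filter fun a => π a = g).card : ℝ) ^ 2 :=
            pow_le_pow_left₀ (norm_nonneg _) h5 2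
        _ = ((univ.filter fun a => π a = g).card : ℝ) * ((univ.filter fun a => π a = g).card : ℝ) :=
            sq _
        _ ≤ _ := mul_le_mul_of_nonneg_left h6 (Nat.cast_nonneg _)
    refine (Finset.sum_le_sum fun g _ => h4 g).trans (le_of_eq ?_)
    rw [← Finset.sum_mul]
    have h7 : ∑ g : G, ((univ.filter fun a => π a = g).card : ℝ) = Fintype.card A := by
      rw [← Nat.cast_sum, Nat.cast_inj, ← Finset.card_univ]
      exact (Finset.card_eq_sum_card_fiberwise (f := π) (s := univ) (t := univ)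
        (fun _ _ => Finset.mem_coe.2 (Finset.mem_univ _))).symm
    rw [h7]
    field_simp
  have h8 := corr_le F' f h2
  have h9 : ∀ b, ‖mean fun a => F a * f (π a * b)‖ ^ 2 =
      ‖∑ g, F' g * f (g * b)‖ ^ 2 / (Fintype.card A : ℝ) ^ 2 := by
    intro b
    unfold mean
    rw [norm_div, div_pow, Complex.norm_natCast, h1]
  rw [Finset.sum_congr rfl fun b _ => h9 b, ← Finset.sum_div, div_le_iff₀ (by positivity)]
  refine h8.trans ((mul_le_mul_of_nonneg_left h3 (by positivity)).trans (le_of_eq ?_))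
  field_simp

end

section
variable {ι : Type} [Fintype ι] {G : ι → Type} [∀ j, CommGroup (G j)] [∀ j, Fintype (G j)]
  {A : Type} [Fintype A] [Nonempty A]

/-- averaging over one coordinate -/
theorem coord [DecidableEq ι] (j : ι) (Y : (∀ i, G i) → ℝ) {C : ℝ}
    (h : ∀ b : (∀ i, G i), ∑ g : G j, Y (b * Pi.mulSingle j g) ≤ C * Fintype.card (G j)) :
    ∑ b : (∀ i, G i), Y b ≤ C * Fintype.card (∀ i, G i) := by
  have hG : (0 : ℝ) < Fintype.card (G j) := by exact_mod_cast Fintype.card_pos
  have h1 : ∀ g : G j, ∑ b : (∀ i, G i), Y (b * Pi.mulSingle j g) = ∑ b : (∀ i, G i), Y b := by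
    intro g
    exact Fintype.sum_equiv (Equiv.mulRight (Pi.mulSingle j g)) _ _ fun b => rfl
  have h2 : (Fintype.card (G j) : ℝ) * ∑ b : (∀ i, G i), Y b =
      ∑ b : (∀ i, G i), ∑ g : G j, Y (b * Pi.mulSingle j g) := by
    rw [Finset.sum_comm, Finset.sum_congr rfl fun g _ => h1 g, Finset.sum_const, nsmul_eq_mul,
      Finset.card_univ]
  have h3 : (Fintype.card (G j) : ℝ) * ∑ b : (∀ i, G i), Y b ≤
      Fintype.card (G j) * (C * Fintype.card (∀ i, G i)) := by
    rw [h2]
    refine (Finset.sum_le_sum fun b _ => h b).trans (le_of_eq ?_)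
    rw [Finset.sum_const, nsmul_eq_mul, Finset.card_univ]
    ring
  exact le_of_mul_le_mul_left h3 hG

theorem tuple [DecidableEq ι] (π : ∀ j, A → G j) {κ : ℝ} (hπ : ∀ j, Spread (π j) κ) (f : ∀ j, G j → ℂ)
    (hf : ∀ j c, ‖f j c‖ ≤ 1) (m : ι → ℂ) (hm : ∀ j, ‖m j‖ ≤ 1) {w : ℝ}
    (hw : ∀ j, Weyl (fun c => f j c - m j) w) (hκ : 0 ≤ κ) :
    ∑ b : ∀ j, G j, ‖(mean fun a => ∏ j, f j (π j a * b j)) - ∏ j, m j‖ ^ 2 ≤
      (Fintype.card ι : ℝ) ^ 2 * κ * w ^ 2 * Fintype.card (∀ j, G j) := by
  set X : Finset ι → (∀ j, G j) → ℂ := fun s b =>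
    mean fun a => (∏ j ∈ s, f j (π j a * b j)) * ∏ j ∈ sᶜ, m j with hX
  have hA : (Fintype.card A : ℂ) ≠ 0 := by exact_mod_cast Fintype.card_ne_zero
  have hP : (0 : ℝ) ≤ Fintype.card (∀ j, G j) := Nat.cast_nonneg _
  -- one step
  have hstep : ∀ (s : Finset ι) (j : ι), j ∉ s →
      ∑ b, ‖X (insert j s) b - X s b‖ ^ 2 ≤ κ * w ^ 2 * Fintype.card (∀ j, G j) := by
    intro s j hj
    refine coord j (fun b => ‖X (insert j s) b - X s b‖ ^ 2) fun b => ?_
    have h1 : ∀ g : G j, X (insert j s) (b * Pi.mulSingle j g) - X s (b * Pi.mulSingle j g) =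
        mean fun a => ((∏ l ∈ s, f l (π l a * b l)) * ∏ l ∈ (insert j s)ᶜ, m l) *
          (f j (π j a * (b j * g)) - m j) := by
      intro g
      have hl : ∀ l ∈ s, (b * Pi.mulSingle j g) l = b l := by
        intro l hl
        have : l ≠ j := fun h => hj (h ▸ hl)
        rw [Pi.mul_apply, Pi.mulSingle_eq_of_ne this, mul_one]
      have hjj : (b * Pi.mulSingle j g) j = b j * g := by
        rw [Pi.mul_apply, Pi.mulSingle_eq_same]
      have hc : sᶜ = insert j (insert j s)ᶜ := by
        ext l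
        simp only [mem_compl, mem_insert, not_or]
        constructor
        · intro h
          by_cases hlj : l = j
          · exact Or.inl hlj
          · exact Or.inr ⟨hlj, h⟩
        · rintro (h | h)
          · rw [h]; exact hj
          · exact h.2
      simp only [hX, mean]
      rw [← sub_div, ← Finset.sum_sub_distrib]
      congr 1
      refine Finset.sum_congr rfl fun a _ => ?_
      rw [Finset.prod_insert hj, hc, Finset.prod_insert (by simp)]
      rw [Finset.prod_congr rfl fun l hl' => by rw [hl l hl'], hjj]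
      ring
    simp only [h1]
    have h2 : ∑ g : G j, ‖mean fun a => ((∏ l ∈ s, f l (π l a * b l)) * ∏ l ∈ (insert j s)ᶜ, m l) *
          (f j (π j a * (b j * g)) - m j)‖ ^ 2 =
        ∑ g : G j, ‖mean fun a => ((∏ l ∈ s, f l (π l a * b l)) * ∏ l ∈ (insert j s)ᶜ, m l) *
          (f j (π j a * g) - m j)‖ ^ 2 :=
      Fintype.sum_equiv (Equiv.mulLeft (b j)) _ _ fun g => rfl
    rw [h2]
    refine one (π j) (hπ j) (fun a => (∏ l ∈ s, f l (π l a * b l)) * ∏ l ∈ (insert j s)ᶜ, m l)
      (fun a => ?_) (fun c => f j c - m j) (hw j)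
    rw [norm_mul, norm_prod, norm_prod]
    refine mul_le_one₀ ?_ (Finset.prod_nonneg fun _ _ => norm_nonneg _) ?_
    · exact Finset.prod_le_one (fun _ _ => norm_nonneg _) fun l _ => hf l _
    · exact Finset.prod_le_one (fun _ _ => norm_nonneg _) fun l _ => hm l
  -- all steps
  have hall : ∀ s : Finset ι, Real.sqrt (∑ b, ‖X s b - X ∅ b‖ ^ 2) ≤
      s.card * Real.sqrt (κ * w ^ 2 * Fintype.card (∀ j, G j)) := by
    intro s
    induction s using Finset.induction with
    | empty => simp
    | insert j s hj ih =>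
      have h1 := Real.sqrt_le_sqrt (hstep s j hj)
      have h2 : Real.sqrt (∑ b, ‖X (insert j s) b - X ∅ b‖ ^ 2) ≤
          Real.sqrt (∑ b, ‖X (insert j s) b - X s b‖ ^ 2) +
          Real.sqrt (∑ b, ‖X s b - X ∅ b‖ ^ 2) := by
        have e : ∀ Y : (∀ j, G j) → ℂ, Real.sqrt (∑ b, ‖Y b‖ ^ 2) =
            ‖(WithLp.toLp 2 Y : EuclideanSpace ℂ (∀ j, G j))‖ := fun Y =>
          (EuclideanSpace.norm_eq _).symm
        rw [e (fun b => X (insert j s) b - X ∅ b), e (fun b => X (insert j s) b - X s b),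
          e (fun b => X s b - X ∅ b)]
        refine le_trans (le_of_eq ?_) (norm_add_le _ _)
        congr 1
        ext b
        simp
      rw [Finset.card_insert_of_notMem hj]
      push_cast
      linarith
  have h := hall univ
  have e1 : ∀ b, X univ b - X ∅ b = (mean fun a => ∏ j, f j (π j a * b j)) - ∏ j, m j := by
    intro b
    simp only [hX, compl_univ, prod_empty, mul_one, compl_empty, one_mul]
    congr 1
    unfold mean
    rw [Finset.sum_const, Finset.card_univ, nsmul_eq_mul, mul_div_cancel_left₀ _ hA]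
  simp only [e1] at h
  have h0 : 0 ≤ ∑ b : ∀ j, G j, ‖(mean fun a => ∏ j, f j (π j a * b j)) - ∏ j, m j‖ ^ 2 :=
    Finset.sum_nonneg fun _ _ => sq_nonneg _
  have h3 := mul_self_le_mul_self (Real.sqrt_nonneg _) h
  rw [Real.mul_self_sqrt h0] at h3
  refine h3.trans (le_of_eq ?_)
  rw [Finset.card_univ, mul_mul_mul_comm, Real.mul_self_sqrt (by positivity)]
  ring

end

end Pool.Agent.X208.CM
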