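import Pool.Agent.X208.CM.Topo

/-! Approximation by tensors of test functions. -/

set_option autoImplicit false

namespace Pool.Agent.X208.CM

open Filter Topology MeasureTheory Set
open scoped UpperHalfPlane MatrixGroups ComplexConjugate

/-- Test functions on the product of `n` modular curves: continuous, invariant under `SL(2, ℤ)^n`, with
compact support modulo this group. -/
def IsTestN {n : ℕ} (F : (Fin n → ℍ) → ℂ) : Prop :=
  Continuous F ∧ (∀ (γ : Fin n → SL(2, ℤ)) (z : Fin n → ℍ), F (fun j => γ j • z j) = F z) ∧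
    ∃ Y : ℝ, ∀ z : Fin n → ℍ, (∀ j, z j ∈ ModularGroup.fd) → (∃ j, Y < (z j).im) → F z = 0

/-- tests with a bound for the support -/
def T (N : ℕ) : Set C(ℍ, ℂ) := {f | (∀ (γ : SL(2, ℤ)) (z : ℍ), f (γ • z) = f z) ∧
  (∀ z ∈ ModularGroup.fd, (N : ℝ) < z.im → f z = 0) ∧ ∀ z, ‖f z‖ ≤ 1}

theorem isTest_of_T {N : ℕ} {f : C(ℍ, ℂ)} (hf : f ∈ T N) : IsTest f :=
  ⟨f.continuous, hf.1, ⟨N, hf.2.1⟩, hf.2.2⟩

/-- finite sums of products of functions of one coordinate -/
def IsSum {n : ℕ} {K : Set Q} (G : C(Fin n → K, ℂ)) : Prop :=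
  ∃ (ι : Type) (_ : Fintype ι) (c : ι → ℂ) (g : ι → Fin n → C(Q, ℂ)),
    ∀ x, G x = ∑ k, c k * ∏ j, g k j (x j)

theorem isSum_adjoin {n : ℕ} {K : Set Q} {G : C(Fin n → K, ℂ)}
    (hG : G ∈ StarAlgebra.adjoin ℂ {G : C(Fin n → K, ℂ) | ∃ (j : Fin n) (g : C(Q, ℂ)),
      ∀ x, G x = g (x j)}) : IsSum G := by
  classical
  induction hG using StarAlgebra.adjoin_induction with
  | mem G h =>
    obtain ⟨j, g, h⟩ := h
    refine ⟨Unit, inferInstance, fun _ => 1, fun _ l => if l = j then g else 1, fun x => ?_⟩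
    rw [h, Finset.univ_unique, Finset.sum_singleton, one_mul,
      Finset.prod_eq_single j (fun l _ hl => by simp only [if_neg hl]; rfl)
        (fun hj => absurd (Finset.mem_univ j) hj)]
    simp only [if_true]
  | algebraMap r =>
    refine ⟨Unit, inferInstance, fun _ => r, fun _ _ => 1, fun x => ?_⟩
    simp
  | add G H _ _ hG hH =>
    obtain ⟨ι, _, c, g, hg⟩ := hG
    obtain ⟨ι', _, c', g', hg'⟩ := hH
    refine ⟨ι ⊕ ι', inferInstance, Sum.elim c c', Sum.elim g g', fun x => ?_⟩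
    rw [Fintype.sum_sum_type, ContinuousMap.add_apply, hg, hg']
    rfl
  | mul G H _ _ hG hH =>
    obtain ⟨ι, _, c, g, hg⟩ := hG
    obtain ⟨ι', _, c', g', hg'⟩ := hH
    refine ⟨ι × ι', inferInstance, fun p => c p.1 * c' p.2, fun p j => g p.1 j * g' p.2 j,
      fun x => ?_⟩
    rw [ContinuousMap.mul_apply, hg, hg', Finset.sum_mul_sum, Fintype.sum_prod_type]
    refine Finset.sum_congr rfl fun a _ => Finset.sum_congr rfl fun b _ => ?_
    simp only [ContinuousMap.mul_apply, Finset.prod_mul_distrib]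
    ring
  | star G _ hG =>
    obtain ⟨ι, _, c, g, hg⟩ := hG
    refine ⟨ι, inferInstance, fun k => conj (c k), fun k j => star (g k j), fun x => ?_⟩
    rw [ContinuousMap.star_apply, hg]
    simp only [ContinuousMap.star_apply, star_sum, star_mul', star_prod]
    rfl

/-- Stone and Weierstrass -/
theorem sw {n : ℕ} {K : Set Q} (hK : IsCompact K) (G : C(Fin n → K, ℂ)) {δ : ℝ} (hδ : 0 < δ) :
    ∃ (ι : Type) (_ : Fintype ι) (c : ι → ℂ) (g : ι → Fin n → C(Q, ℂ)),
      ∀ x : Fin n → K, ‖G x - ∑ k, c k * ∏ j, g k j (x j)‖ ≤ δ := by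
  have : CompactSpace K := isCompact_iff_compactSpace.1 hK
  set S : StarSubalgebra ℂ C(Fin n → K, ℂ) := StarAlgebra.adjoin ℂ
    {G : C(Fin n → K, ℂ) | ∃ (j : Fin n) (g : C(Q, ℂ)), ∀ x, G x = g (x j)} with hS
  have hsep : S.SeparatesPoints := by
    intro x y hxy
    obtain ⟨j, hj⟩ := Function.ne_iff.1 hxy
    have hj' : (x j : Q) ≠ y j := fun h => hj (Subtype.ext h)
    obtain ⟨f, hf1, hf0, -, -⟩ := exists_continuous_one_zero_of_isCompact
      (isCompact_singleton (x := (x j : Q))) (isClosed_singleton (x := (y j : Q)))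
      (Set.disjoint_singleton.2 hj')
    let g : C(Q, ℂ) := ⟨fun z => (f z : ℂ), by fun_prop⟩
    let H : C(Fin n → K, ℂ) := ⟨fun z => g (z j), by fun_prop⟩
    refine ⟨H, ⟨H, StarAlgebra.subset_adjoin ℂ _ ⟨j, g, fun z => rfl⟩, rfl⟩, ?_⟩
    have e1 : f (x j) = 1 := hf1 (mem_singleton _)
    have e0 : f (y j) = 0 := hf0 (mem_singleton _)
    change ((f (x j) : ℝ) : ℂ) ≠ ((f (y j) : ℝ) : ℂ)
    rw [e1, e0]
    simp
  have htop := ContinuousMap.starSubalgebra_topologicalClosure_eq_top_of_separatesPoints S hsep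
  have hmem : G ∈ S.topologicalClosure := by rw [htop]; trivial
  have hcl : G ∈ closure (S : Set C(Fin n → K, ℂ)) := hmem
  obtain ⟨H, hH, hd⟩ := Metric.mem_closure_iff.1 hcl δ hδ
  obtain ⟨ι, i1, c, g, hg⟩ := isSum_adjoin hH
  refine ⟨ι, i1, c, g, fun x => ?_⟩
  rw [← hg x, ← dist_eq_norm]
  exact (ContinuousMap.dist_apply_le_dist x).trans hd.le

end Pool.Agent.X208.CM
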