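import Pool.Agent.X208.CM.Defs

/-! The laws for sequences of orders. -/

set_option autoImplicit false

namespace Pool.Agent.X208.CM

open Filter Topology MeasureTheory Finset
open scoped UpperHalfPlane MatrixGroups nonZeroDivisors ComplexConjugate

theorem share_eq {B : Type} [Fintype B] (P : B → Prop) [DecidablePred P] :
    share P = ((univ.filter P).card : ℝ) / Fintype.card B := by
  unfold share
  rw [Nat.card_eq_fintype_card, Nat.card_eq_fintype_card, Fintype.card_subtype]

theorem share_nonneg {B : Type} (P : B → Prop) : 0 ≤ share P := by unfold share; positivity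

theorem cheb {B : Type} [Fintype B] (Y : B → ℂ) {C ε : ℝ} (hε : 0 < ε) (hC : 0 ≤ C)
    (h : ∑ b, ‖Y b‖ ^ 2 ≤ C * Fintype.card B) : share (fun b => ε < ‖Y b‖) ≤ C / ε ^ 2 := by
  classical
  rw [share_eq]
  rcases Nat.eq_zero_or_pos (Fintype.card B) with h0 | h0
  · rw [h0, Nat.cast_zero, div_zero]; positivity
  · have h0' : (0 : ℝ) < Fintype.card B := by exact_mod_cast h0
    rw [div_le_div_iff₀ h0' (by positivity)]
    refine le_trans ?_ h
    calc ((univ.filter fun b => ε < ‖Y b‖).card : ℝ) * ε ^ 2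
        = ∑ b ∈ univ.filter (fun b => ε < ‖Y b‖), ε ^ 2 := by rw [Finset.sum_const, nsmul_eq_mul]
      _ ≤ ∑ b ∈ univ.filter (fun b => ε < ‖Y b‖), ‖Y b‖ ^ 2 := by
          refine Finset.sum_le_sum fun b hb => ?_
          exact pow_le_pow_left₀ hε.le (Finset.mem_filter.1 hb).2.le 2
      _ ≤ ∑ b, ‖Y b‖ ^ 2 :=
          Finset.sum_le_sum_of_subset_of_nonneg (Finset.filter_subset _ _) fun _ _ _ => sq_nonneg _

theorem ms_le {B : Type} [Fintype B] [Nonempty B] (Y : B → ℂ) {M ε : ℝ}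
    (h : ∀ b, ‖Y b‖ ≤ M) :
    ∑ b, ‖Y b‖ ^ 2 ≤ (share (fun b => ε < ‖Y b‖) * M ^ 2 + ε ^ 2) * Fintype.card B := by
  classical
  rw [share_eq]
  have h0' : (0 : ℝ) < Fintype.card B := by exact_mod_cast Fintype.card_pos
  have e : ((univ.filter fun b => ε < ‖Y b‖).card / (Fintype.card B : ℝ) * M ^ 2 + ε ^ 2) *
      Fintype.card B = ∑ b, ((if ε < ‖Y b‖ then M ^ 2 else 0) + ε ^ 2) := by
    rw [Finset.sum_add_distrib, Finset.sum_const, ← Finset.sum_filter, Finset.sum_const,
      Finset.card_univ, nsmul_eq_mul, nsmul_eq_mul]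
    field_simp
  rw [e]
  refine Finset.sum_le_sum fun b _ => ?_
  split_ifs with hb
  · have := pow_le_pow_left₀ (norm_nonneg (Y b)) (h b) 2
    nlinarith [sq_nonneg ε]
  · have := pow_le_pow_left₀ (norm_nonneg (Y b)) (not_lt.1 hb) 2
    linarith

theorem share_mono {B : Type} [Finite B] {P Q : B → Prop} (h : ∀ b, P b → Q b) :
    share P ≤ share Q := by
  classical
  have := Fintype.ofFinite B
  rw [share_eq, share_eq]
  refine div_le_div_of_nonneg_right ?_ (Nat.cast_nonneg _)
  exact_mod_cast Finset.card_le_card fun b hb => by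
    rw [Finset.mem_filter] at hb ⊢
    exact ⟨hb.1, h b hb.2⟩

theorem spread_mono {A G : Type} [Fintype A] [Fintype G] {π : A → G} {κ κ' : ℝ} (h : Spread π κ)
    (hk : κ ≤ κ') : Spread π κ' := fun g => (h g).trans (by gcongr)

theorem spread_id {G : Type} [Fintype G] : Spread (fun a : G => a) 1 := by
  classical
  intro g
  have : (univ.filter fun a : G => a = g) = {g} := by ext; simp
  have h2 : ((@Finset.filter G (fun a => a = g) (fun a => Classical.propDecidable _) univ).card) = 1 := by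
    rw [Finset.card_eq_one]
    exact ⟨g, by ext; simp⟩
  rw [h2]
  simp

theorem hyp_conj (f : ℍ → ℂ) : hyp (fun z => conj (f z)) = conj (hyp f) := by
  unfold hyp
  rw [integral_conj, map_mul, Complex.conj_ofReal]

theorem isTest_conj {f : ℍ → ℂ} (hf : IsTest f) : IsTest (fun z => conj (f z)) := by
  obtain ⟨h1, h2, ⟨Y, h3⟩, h4⟩ := hf
  refine ⟨Complex.continuous_conj.comp h1, fun γ z => by simp only [h2], ⟨Y, fun z hz hY => ?_⟩,
    fun z => ?_⟩
  · simp only [h3 z hz hY, map_zero]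
  · simp only [Complex.norm_conj]; exact h4 z

/-- the mean of a function bounded by `1` -/
theorem mean_le {A : Type} [Fintype A] {f : A → ℂ} {M : ℝ} (hM : 0 ≤ M) (hf : ∀ a, ‖f a‖ ≤ M) :
    ‖mean f‖ ≤ M := by
  unfold mean
  rw [norm_div, Complex.norm_natCast]
  rcases Nat.eq_zero_or_pos (Fintype.card A) with h0 | h0
  · rw [h0, Nat.cast_zero, div_zero]; exact hM
  · have h0' : (0 : ℝ) < Fintype.card A := by exact_mod_cast h0
    rw [div_le_iff₀ h0']
    refine (norm_sum_le _ _).trans ((Finset.sum_le_sum fun a _ => hf a).trans (le_of_eq ?_))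
    rw [Finset.sum_const, nsmul_eq_mul, Finset.card_univ, mul_comm]

section
variable {R : ℕ → Type} [∀ i, CommRing (R i)] [∀ i, IsDomain (R i)]
  [∀ i, Fintype (ClassGroup (R i))] {φ : ∀ i, ClassGroup (R i) → ℍ}

theorem hyp_le (h : WeylLaw R φ) {f : ℍ → ℂ} (hf : IsTest f) : ‖hyp f‖ ≤ 1 := by
  refine le_of_forall_pos_le_add fun ε hε => ?_
  obtain ⟨i, hi⟩ := (h f hf ε hε).exists
  have h1 := hi 0
  have h2 : (mean fun c => (f (φ i c) - hyp f) * (0 : AddChar (Additive (ClassGroup (R i))) ℂ)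
      (Additive.ofMul c)) = (mean fun c => f (φ i c)) - hyp f := by
    unfold mean
    have h0 : (Fintype.card (ClassGroup (R i)) : ℂ) ≠ 0 := by exact_mod_cast Fintype.card_ne_zero
    simp only [AddChar.zero_apply, mul_one]
    rw [Finset.sum_sub_distrib, Finset.sum_const, Finset.card_univ, nsmul_eq_mul, sub_div,
      mul_div_cancel_left₀ _ h0]
  rw [h2] at h1
  have h3 : ‖mean fun c => f (φ i c)‖ ≤ 1 := mean_le zero_le_one fun c => hf.2.2.2 _
  have h4 : ‖hyp f‖ ≤ ‖mean fun c => f (φ i c)‖ + ‖(mean fun c => f (φ i c)) - hyp f‖ := by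
    have := norm_sub_le (mean fun c => f (φ i c)) ((mean fun c => f (φ i c)) - hyp f)
    rwa [sub_sub_cancel] at this
  linarith

end

section
variable {n : ℕ} {R : Fin n → ℕ → Type} [∀ j i, CommRing (R j i)] [∀ j i, IsDomain (R j i)]
  [∀ j i, Fintype (ClassGroup (R j i))] {φ : ∀ j i, ClassGroup (R j i) → ℍ}

theorem general (h : ∀ j, WeylLaw (R j) (φ j)) : GeneralLaw R φ := by
  intro κ A iA iN π hπ f hf ε hε
  rw [tendsto_order]
  refine ⟨fun a ha => Eventually.of_forall fun i => ha.trans_le (share_nonneg _), fun δ hδ => ?_⟩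
  set κ' := max κ 0 with hκ'
  obtain ⟨w, hw, hwδ⟩ : ∃ w : ℝ, 0 < w ∧ (n : ℝ) ^ 2 * κ' * w ^ 2 / ε ^ 2 < δ := by
    have hlim : Tendsto (fun w : ℝ => (n : ℝ) ^ 2 * κ' * w ^ 2 / ε ^ 2) (𝓝[>] 0) (𝓝 0) := by
      have : Tendsto (fun w : ℝ => (n : ℝ) ^ 2 * κ' * w ^ 2 / ε ^ 2) (𝓝 0)
          (𝓝 ((n : ℝ) ^ 2 * κ' * 0 ^ 2 / ε ^ 2)) := by
        refine Continuous.tendsto ?_ 0
        fun_prop
      simp only [ne_eq, OfNat.ofNat_ne_zero, not_false_eq_true, zero_pow, mul_zero, zero_div] at this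
      exact this.mono_left nhdsWithin_le_nhds
    have h1 := (hlim.eventually_lt_const hδ).and self_mem_nhdsWithin
    obtain ⟨w, hw1, hw2⟩ := h1.exists
    exact ⟨w, hw2, hw1⟩
  have hev : ∀ᶠ i in atTop, ∀ j, Weyl (fun C => f j (φ j i C) - hyp (f j)) w :=
    eventually_all.2 fun j => h j (f j) (hf j) w hw
  filter_upwards [hev] with i hi
  refine lt_of_le_of_lt (cheb (fun b : ∀ j, ClassGroup (R j i) =>
    (mean fun a : A i => ∏ j, f j (φ j i (π i j a * b j))) - ∏ j, hyp (f j)) hε ?_ ?_) hwδ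
  · positivity
  · have := tuple (A := A i) (G := fun j => ClassGroup (R j i)) (π i) (κ := κ')
      (fun j => spread_mono (hπ i j) (le_max_left _ _)) (fun j C => f j (φ j i C))
      (fun j c => (hf j).2.2.2 _) (fun j => hyp (f j)) (fun j => hyp_le (h j) (hf j)) (w := w) hi
      (le_max_right _ _)
    rw [Fintype.card_fin] at this
    exact this

end

section
variable {R : ℕ → Type} [∀ i, CommRing (R i)] [∀ i, IsDomain (R i)]
  [∀ i, Fintype (ClassGroup (R i))] {φ : ∀ i, ClassGroup (R i) → ℍ}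

theorem tuple_of_weyl (h : WeylLaw R φ) (n : ℕ) : TupleLaw R φ n := by
  intro f hf ε hε
  exact general (R := fun _ : Fin n => R) (φ := fun _ => φ) (fun _ => h) 1
    (fun i => ClassGroup (R i)) (fun i => inferInstance) (fun i => inferInstance)
    (fun i _ a => a) (fun i j => spread_id) f hf ε hε

/-- a mean over the pairs -/
theorem mean_shift {G : Type} [CommGroup G] [Fintype G] (g : G → ℂ) (b : G) :
    (mean fun a => g (a * b)) = mean g := by
  unfold mean
  congr 1
  exact Fintype.sum_equiv (Equiv.mulRight b) _ _ fun a => rfl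

theorem pair_sum {G : Type} [CommGroup G] [Fintype G] (g : G → ℂ) :
    ∑ b : Fin 2 → G, ‖mean fun a => g (a * b 0) * conj (g (a * b 1))‖ ^ 2 =
      Fintype.card G * ∑ b, ‖mean fun a => g a * conj (g (a * b))‖ ^ 2 := by
  have e : ∑ b : Fin 2 → G, ‖mean fun a => g (a * b 0) * conj (g (a * b 1))‖ ^ 2 =
      ∑ p : G × G, ‖mean fun a => g (a * p.1) * conj (g (a * p.2))‖ ^ 2 :=
    Fintype.sum_equiv (finTwoArrowEquiv G) _ _ fun b => rfl
  rw [e, Fintype.sum_prod_type]
  have h : ∀ x : G, ∑ y : G, ‖mean fun a => g (a * x) * conj (g (a * y))‖ ^ 2 =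
      ∑ b, ‖mean fun a => g a * conj (g (a * b))‖ ^ 2 := by
    intro x
    refine Fintype.sum_equiv (Equiv.mulLeft x⁻¹) _ _ fun y => ?_
    have := mean_shift (fun a => g a * conj (g (a * (x⁻¹ * y)))) x
    simp only [Equiv.coe_mulLeft]
    rw [← this]
    congr 3
    funext a
    rw [mul_assoc a x (x⁻¹ * y), mul_inv_cancel_left]
  rw [Finset.sum_congr rfl fun x _ => h x, Finset.sum_const, nsmul_eq_mul, Finset.card_univ]

/-- all Weyl sums are controlled by the pairs -/
theorem weyl_pair {G : Type} [CommGroup G] [Fintype G] (g : G → ℂ)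
    (ψ : AddChar (Additive G) ℂ) {D : ℝ}
    (h : ∑ b : Fin 2 → G, ‖mean fun a => g (a * b 0) * conj (g (a * b 1))‖ ^ 2 ≤
      D * Fintype.card (Fin 2 → G)) :
    ‖mean fun c => g c * ψ (Additive.ofMul c)‖ ^ 4 ≤ D := by
  have hG : (0 : ℝ) < Fintype.card G := by exact_mod_cast Fintype.card_pos
  rw [pair_sum, Fintype.card_fun, Fintype.card_fin] at h
  push_cast at h
  have h1 := weyl_le g ψ
  have h2 : ∑ b, ‖mean fun a => g a * conj (g (a * b))‖ ^ 2 =
      (∑ b, ‖∑ a, g a * conj (g (a * b))‖ ^ 2) / (Fintype.card G : ℝ) ^ 2 := by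
    rw [Finset.sum_div]
    refine Finset.sum_congr rfl fun b _ => ?_
    unfold mean
    rw [norm_div, div_pow, Complex.norm_natCast]
  rw [h2] at h
  have h3 : ‖mean fun c => g c * ψ (Additive.ofMul c)‖ ^ 4 =
      ‖∑ c, g c * ψ (Additive.ofMul c)‖ ^ 4 / (Fintype.card G : ℝ) ^ 4 := by
    unfold mean
    rw [norm_div, div_pow, Complex.norm_natCast]
  rw [h3, div_le_iff₀ (by positivity)]
  refine h1.trans ?_
  have h4 : (Fintype.card G : ℝ) * ∑ b, ‖∑ a, g a * conj (g (a * b))‖ ^ 2 =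
      (Fintype.card G * ((∑ b, ‖∑ a, g a * conj (g (a * b))‖ ^ 2) / (Fintype.card G : ℝ) ^ 2)) *
        (Fintype.card G : ℝ) ^ 2 := by
    field_simp
  rw [h4]
  refine (mul_le_mul_of_nonneg_right h (by positivity)).trans (le_of_eq ?_)
  ring

theorem weyl_of_tuple (h1 : TupleLaw R φ 1) (h2 : TupleLaw R φ 2) : WeylLaw R φ := by
  intro f hf ε hε
  set m := hyp f with hm
  -- parameters
  set K : ℝ := (1 + ‖m‖) ^ 2 with hK
  obtain ⟨η, hη, hηε⟩ : ∃ η : ℝ, 0 < η ∧ η * K ^ 2 + (η * (1 + 2 * ‖m‖)) ^ 2 < ε ^ 4 := by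
    have hlim : Tendsto (fun η : ℝ => η * K ^ 2 + (η * (1 + 2 * ‖m‖)) ^ 2) (𝓝[>] 0) (𝓝 0) := by
      have : Tendsto (fun η : ℝ => η * K ^ 2 + (η * (1 + 2 * ‖m‖)) ^ 2) (𝓝 0)
          (𝓝 (0 * K ^ 2 + (0 * (1 + 2 * ‖m‖)) ^ 2)) := by
        refine Continuous.tendsto ?_ 0
        fun_prop
      simp only [zero_mul, ne_eq, OfNat.ofNat_ne_zero, not_false_eq_true, zero_pow, add_zero] at this
      exact this.mono_left nhdsWithin_le_nhds
    have h1 := (hlim.eventually_lt_const (by positivity : (0 : ℝ) < ε ^ 4)).and self_mem_nhdsWithin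
    obtain ⟨η, hη1, hη2⟩ := h1.exists
    exact ⟨η, hη2, hη1⟩
  have e1 := h1 (fun _ => f) (fun _ => hf) η hη
  have e2 := h2 (fun j => if j = 0 then f else fun z => conj (f z))
    (fun j => by split_ifs; exacts [hf, isTest_conj hf]) η hη
  have e1' := e1.eventually_lt_const (zero_lt_one' ℝ)
  have e2' := e2.eventually_lt_const hη
  filter_upwards [e1', e2'] with i hi1 hi2
  set M : ℂ := (mean fun c => f (φ i c)) - m with hM
  -- the mean
  have hMη : ‖M‖ ≤ η := by
    by_contra hcon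
    have hs : ∀ b : Fin 1 → ClassGroup (R i), η < ‖(mean fun a : ClassGroup (R i) =>
        ∏ j : Fin 1, f (φ i (a * b j))) - ∏ j : Fin 1, hyp f‖ := by
      intro b
      simp only [Finset.univ_unique, Finset.prod_singleton]
      rw [mean_shift (fun c => f (φ i c)) (b default)]
      exact not_le.1 hcon
    have h3 : share (fun b : Fin 1 → ClassGroup (R i) => η < ‖(mean fun a : ClassGroup (R i) =>
        ∏ j : Fin 1, f (φ i (a * b j))) - ∏ j : Fin 1, hyp f‖) = 1 := by
      classical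
      rw [share_eq, Finset.filter_true_of_mem fun b _ => hs b, Finset.card_univ, div_self]
      exact_mod_cast Fintype.card_ne_zero
    rw [h3] at hi1
    exact lt_irrefl _ hi1
  -- the pairs
  intro ψ
  have hgle : ∀ c : ClassGroup (R i), ‖f (φ i c) - m‖ ≤ 1 + ‖m‖ := fun c =>
    (norm_sub_le _ _).trans (add_le_add_left (hf.2.2.2 _) _)
  have hexp : ∀ b : Fin 2 → ClassGroup (R i),
      (mean fun a => (f (φ i (a * b 0)) - m) * conj (f (φ i (a * b 1)) - m)) =
      ((mean fun a => f (φ i (a * b 0)) * conj (f (φ i (a * b 1)))) - m * conj m) -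
        conj m * M - m * conj M := by
    intro b
    have h0 : (Fintype.card (ClassGroup (R i)) : ℂ) ≠ 0 := by exact_mod_cast Fintype.card_ne_zero
    have s0 := mean_shift (fun c => f (φ i c)) (b 0)
    have s1 := mean_shift (fun c => f (φ i c)) (b 1)
    have s1' : conj (mean fun c => f (φ i c)) = mean fun a => conj (f (φ i (a * b 1))) := by
      rw [← s1]
      unfold mean
      rw [map_div₀, map_sum, map_natCast]
    rw [hM, map_sub, s1', ← s0]
    have e : ∀ a, (f (φ i (a * b 0)) - m) * conj (f (φ i (a * b 1)) - m) =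
        f (φ i (a * b 0)) * conj (f (φ i (a * b 1))) - conj m * f (φ i (a * b 0)) -
          m * conj (f (φ i (a * b 1))) + m * conj m := by
      intro a
      rw [map_sub]
      ring
    simp only [mean, e]
    rw [Finset.sum_add_distrib, Finset.sum_sub_distrib, Finset.sum_sub_distrib, ← Finset.mul_sum,
      ← Finset.mul_sum, Finset.sum_const, Finset.card_univ, nsmul_eq_mul]
    field_simp
    ring
  have hT : ∀ b : Fin 2 → ClassGroup (R i),
      ‖mean fun a => (f (φ i (a * b 0)) - m) * conj (f (φ i (a * b 1)) - m)‖ ≤ K := by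
    intro b
    refine mean_le (by positivity) fun a => ?_
    rw [norm_mul, Complex.norm_conj, hK, sq]
    exact mul_le_mul (hgle _) (hgle _) (norm_nonneg _) (by positivity)
  have hms := ms_le (B := Fin 2 → ClassGroup (R i)) (fun b =>
    mean fun a => (f (φ i (a * b 0)) - m) * conj (f (φ i (a * b 1)) - m))
    (M := K) (ε := η * (1 + 2 * ‖m‖)) hT
  have hsh : share (fun b : Fin 2 → ClassGroup (R i) => η * (1 + 2 * ‖m‖) <
      ‖mean fun a => (f (φ i (a * b 0)) - m) * conj (f (φ i (a * b 1)) - m)‖) ≤ η := by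
    refine (share_mono fun b hb => ?_).trans hi2.le
    rw [hexp b] at hb
    have h4 : (mean fun a : ClassGroup (R i) => ∏ j : Fin 2,
        (if j = 0 then f else fun z => conj (f z)) (φ i (a * b j))) -
        ∏ j : Fin 2, hyp (if j = 0 then f else fun z => conj (f z)) =
        (mean fun a => f (φ i (a * b 0)) * conj (f (φ i (a * b 1)))) - m * conj m := by
      simp only [Fin.prod_univ_two, if_true, Fin.isValue, one_ne_zero, if_false]
      rw [hyp_conj]
    rw [h4]
    by_contra hcon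
    rw [not_lt] at hcon
    refine absurd hb (not_lt.2 ?_)
    refine (norm_sub_le _ _).trans ?_
    refine (add_le_add (norm_sub_le _ _) le_rfl).trans ?_
    rw [norm_mul, norm_mul, Complex.norm_conj, Complex.norm_conj]
    have := mul_le_mul_of_nonneg_left hMη (norm_nonneg m)
    linarith
  have hfin := weyl_pair (fun c => f (φ i c) - m) ψ
    (D := η * K ^ 2 + (η * (1 + 2 * ‖m‖)) ^ 2) (hms.trans ?_)
  · have h5 := hfin.trans hηε.le
    exact le_of_pow_le_pow_left₀ (by norm_num) hε.le h5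
  · gcongr

theorem weyl_iff : WeylLaw R φ ↔ (TupleLaw R φ 1 ∧ TupleLaw R φ 2) :=
  ⟨fun h => ⟨tuple_of_weyl h 1, tuple_of_weyl h 2⟩, fun h => weyl_of_tuple h.1 h.2⟩

end

end Pool.Agent.X208.CM
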