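import Pool.Agent.X208.CM.Seq

/-! The statements. -/

set_option autoImplicit false

namespace Pool.Agent.X208.CM

open Filter Topology MeasureTheory Finset
open scoped UpperHalfPlane MatrixGroups nonZeroDivisors ComplexConjugate

/-- One more coordinate. Whatever the special point given by the finite orbit `A` and the bounded function
`F` on it, after adding the coordinate `φ b` the orbit average of `F ⊗ f` is within `ε` of the product of the
average of `F` and the hyperbolic mean of `f`, for all classes `b` but a share of `κ w² / ε²`. -/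
def OneMore (R : Type) [CommRing R] [IsDomain R] [Fintype (ClassGroup R)] (φ : ClassGroup R → ℍ) : Prop :=
  ∀ (A : Type) [Fintype A] [Nonempty A] (π : A → ClassGroup R) (κ : ℝ), Spread π κ →
    ∀ F : A → ℂ, (∀ a, ‖F a‖ ≤ 1) → ∀ (f : ℍ → ℂ) (w : ℝ), Weyl (fun C => f (φ C) - hyp f) w →
    ∀ ε : ℝ, 0 < ε → share (fun b : ClassGroup R =>
      ε < ‖(mean fun a => F a * f (φ (π a * b))) - mean F * hyp f‖) ≤ κ * w ^ 2 / ε ^ 2

theorem oneMore (R : Type) [CommRing R] [IsDomain R] [Fintype (ClassGroup R)]
    (φ : ClassGroup R → ℍ) : OneMore R φ := by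
  intro A _ _ π κ hπ F hF f w hw ε hε
  have hκ : 0 ≤ κ := by
    have h1 := hπ 1
    have h2 : (0 : ℝ) ≤ κ * Fintype.card A := le_trans (by positivity) h1
    have hA : (0 : ℝ) < Fintype.card A := by exact_mod_cast Fintype.card_pos
    exact nonneg_of_mul_nonneg_left h2 hA
  have h := one π hπ F hF (fun C => f (φ C) - hyp f) hw
  refine cheb (fun b : ClassGroup R => (mean fun a => F a * f (φ (π a * b))) - mean F * hyp f) hε
    (by positivity) ?_
  refine le_trans (le_of_eq (Finset.sum_congr rfl fun b _ => ?_)) h
  congr 2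
  unfold mean
  rw [div_mul_eq_mul_div, ← sub_div, Finset.sum_mul, ← Finset.sum_sub_distrib]
  congr 1
  exact Finset.sum_congr rfl fun a _ => by ring

end Pool.Agent.X208.CM
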