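import Pool.Agent.X208.CM.Fin

/-! Equidistribution of almost all sequences of tuples, for all test functions on the product. -/

set_option autoImplicit false

namespace Pool.Agent.X208.CM

open Filter Topology MeasureTheory Set
open scoped UpperHalfPlane MatrixGroups ComplexConjugate

/-- a countable family of tests -/
theorem exists_family : ∃ g : ℕ → C(ℍ, ℂ), (∀ k, IsTest (g k)) ∧
    ∀ N, ∀ f ∈ T N, ∀ δ : ℝ, 0 < δ → ∃ k, g k ∈ T N ∧ ∀ z, ‖f z - g k z‖ ≤ δ := by
  choose D hD hDT hap using exists_dense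
  have hc : (⋃ N, D N).Countable := countable_iUnion hD
  have h0 : (0 : C(ℍ, ℂ)) ∈ T 0 := ⟨fun _ _ => rfl, fun _ _ _ => rfl, fun _ => by simp⟩
  have hne : (⋃ N, D N).Nonempty := by
    obtain ⟨g, hg, -⟩ := hap 0 0 h0 1 one_pos
    exact ⟨g, mem_iUnion.2 ⟨0, hg⟩⟩
  obtain ⟨g, hg⟩ := hc.exists_eq_range hne
  refine ⟨g, fun k => ?_, fun N f hf δ hδ => ?_⟩
  · have : g k ∈ ⋃ N, D N := by rw [hg]; exact mem_range_self k
    obtain ⟨N, hN⟩ := mem_iUnion.1 this
    exact isTest_of_T (hDT N hN)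
  · obtain ⟨g', hg', h⟩ := hap N f hf δ hδ
    have : g' ∈ range g := by rw [← hg]; exact mem_iUnion.2 ⟨N, hg'⟩
    obtain ⟨k, rfl⟩ := this
    exact ⟨k, hDT N hg', h⟩

theorem prod_sub_le {ι : Type} (s : Finset ι) (f g : ι → ℂ) (hf : ∀ j, ‖f j‖ ≤ 1)
    (hg : ∀ j, ‖g j‖ ≤ 1) {δ : ℝ} (h : ∀ j, ‖f j - g j‖ ≤ δ) :
    ‖∏ j ∈ s, f j - ∏ j ∈ s, g j‖ ≤ s.card * δ := by
  classical
  induction s using Finset.induction with
  | empty => simp
  | insert j s hj ih =>
    rw [Finset.prod_insert hj, Finset.prod_insert hj, Finset.card_insert_of_notMem hj]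
    have e : f j * ∏ l ∈ s, f l - g j * ∏ l ∈ s, g l =
        (f j - g j) * ∏ l ∈ s, f l + g j * (∏ l ∈ s, f l - ∏ l ∈ s, g l) := by ring
    rw [e]
    refine (norm_add_le _ _).trans ?_
    rw [norm_mul, norm_mul, norm_prod]
    have h1 : ∏ l ∈ s, ‖f l‖ ≤ 1 := Finset.prod_le_one (fun _ _ => norm_nonneg _) fun l _ => hf l
    have h2 : ‖f j - g j‖ * ∏ l ∈ s, ‖f l‖ ≤ δ * 1 :=
      mul_le_mul (h j) h1 (Finset.prod_nonneg fun _ _ => norm_nonneg _)
        ((norm_nonneg _).trans (h j))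
    have h3 : ‖g j‖ * ‖∏ l ∈ s, f l - ∏ l ∈ s, g l‖ ≤ 1 * (s.card * δ) :=
      mul_le_mul (hg j) ih (norm_nonneg _) zero_le_one
    push_cast
    linarith

theorem mean_sub {A : Type} [Fintype A] (f g : A → ℂ) :
    mean f - mean g = mean fun a => f a - g a := by
  unfold mean
  rw [Finset.sum_sub_distrib, sub_div]

/-- Convergence on the products of the countable family gives it for all test functions. -/
theorem equi_of_family {K : Type} {g : K → C(ℍ, ℂ)}
    (hap : ∀ N, ∃ N', ∀ f ∈ T N, ∀ δ : ℝ, 0 < δ → ∃ k, g k ∈ T N' ∧ ∀ z, ‖f z - g k z‖ ≤ δ)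
    {n : ℕ} {A : ℕ → Type} [∀ i, Fintype (A i)] [∀ i, Nonempty (A i)] (x : ∀ i, A i → Fin n → ℍ)
    (h : ∀ k : Fin n → K, (∀ j, ∃ N, g (k j) ∈ T N) → Tendsto (fun i => (mean fun a => ∏ j, g (k j) (x i a j)) -
      ∏ j, hyp (g (k j))) atTop (𝓝 0)) : Equi x := by
  intro F hF
  obtain ⟨N₀, hN₀, happ⟩ := approx hF
  obtain ⟨N₁, hap⟩ := hap N₀
  set N := max N₀ N₁ with hNdef
  have hN : Van N F := by
    rintro z hz ⟨j, hj⟩
    refine hN₀ z hz ⟨j, lt_of_le_of_lt ?_ hj⟩
    exact_mod_cast le_max_left N₀ N₁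
  have hT : ∀ f ∈ T N₁, f ∈ T N := fun f hf => ⟨hf.1, fun z hz hj =>
    hf.2.1 z hz (lt_of_le_of_lt (by exact_mod_cast le_max_right N₀ N₁) hj), hf.2.2⟩
  -- the error
  set V : ℝ := (3 / Real.pi) ^ n * (volume (TN n N)).toReal with hV
  have hV0 : 0 ≤ V := by positivity
  rw [Metric.tendsto_atTop']
  intro ε hε
  set δ : ℝ := ε / (4 * (1 + V)) with hδ
  have hδ0 : 0 < δ := by positivity
  obtain ⟨ι, iι, c, f, hf, hfF⟩ := happ δ hδ0
  set δ' : ℝ := δ / (1 + n * ∑ k, ‖c k‖) with hδ'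
  have hS0 : 0 ≤ ∑ k, ‖c k‖ := Finset.sum_nonneg fun _ _ => norm_nonneg _
  have hδ'0 : 0 < δ' := by positivity
  choose κ hκT' hκ using fun (k : ι) (j : Fin n) => hap (f k j) (hf k j) δ' hδ'0
  have hκT : ∀ k j, g (κ k j) ∈ T N := fun k j => hT _ (hκT' k j)
  let G : (Fin n → ℍ) → ℂ := fun z => ∑ k, c k * ∏ j, g (κ k j) (z j)
  have hFG : ∀ z, ‖F z - G z‖ ≤ 2 * δ := by
    intro z
    have h1 : ‖(∑ k, c k * ∏ j, f k j (z j)) - G z‖ ≤ δ := by
      change ‖(∑ k, c k * ∏ j, f k j (z j)) - ∑ k, c k * ∏ j, g (κ k j) (z j)‖ ≤ δ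
      rw [← Finset.sum_sub_distrib]
      have h2 : ∀ k, ‖c k * ∏ j, f k j (z j) - c k * ∏ j, g (κ k j) (z j)‖ ≤
          ‖c k‖ * (n * δ') := by
        intro k
        rw [← mul_sub, norm_mul]
        refine mul_le_mul_of_nonneg_left ?_ (norm_nonneg _)
        have := prod_sub_le Finset.univ (fun j => f k j (z j)) (fun j => g (κ k j) (z j))
          (fun j => (hf k j).2.2 _) (fun j => (hκT k j).2.2 _) (δ := δ') fun j => hκ k j _
        rwa [Finset.card_univ, Fintype.card_fin] at this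
      refine (norm_sum_le _ _).trans ((Finset.sum_le_sum fun k _ => h2 k).trans ?_)
      rw [← Finset.sum_mul, hδ']
      rw [show (∑ k, ‖c k‖) * (n * (δ / (1 + n * ∑ k, ‖c k‖))) =
        δ * ((n * ∑ k, ‖c k‖) / (1 + n * ∑ k, ‖c k‖)) by ring]
      refine mul_le_of_le_one_right hδ0.le ?_
      rw [div_le_one (by positivity)]
      linarith
    have h3 := norm_add_le (F z - ∑ k, c k * ∏ j, f k j (z j))
      ((∑ k, c k * ∏ j, f k j (z j)) - G z)
    rw [sub_add_sub_cancel] at h3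
    have h4 := hfF z
    linarith
  -- the sum
  have hc1 : ∀ k, Continuous fun z : Fin n → ℍ => ∏ j, g (κ k j) (z j) := fun k =>
    continuous_finset_prod _ fun j _ => (g (κ k j)).continuous.comp (continuous_apply j)
  have hv1 : ∀ k, Van N fun z : Fin n → ℍ => ∏ j, g (κ k j) (z j) := by
    rintro k z hz ⟨j, hj⟩
    exact Finset.prod_eq_zero (Finset.mem_univ j) ((hκT k j).2.1 _ (hz j) hj)
  have hGc : Continuous G := continuous_finset_sum _ fun k _ => continuous_const.mul (hc1 k)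
  have hGv : Van N G := fun z hz hj => Finset.sum_eq_zero fun k _ => by
    rw [show ∏ j, g (κ k j) (z j) = 0 from hv1 k z hz hj, mul_zero]
  have hGh : hypN G = ∑ k, c k * ∏ j, hyp (g (κ k j)) := by
    have := hypN_sum c (fun k z => ∏ j, g (κ k j) (z j)) hc1 hv1
    refine this.trans (Finset.sum_congr rfl fun k _ => ?_)
    rw [← hypN_prod]
  have hGt : Tendsto (fun i => (mean fun a => G (x i a)) - hypN G) atTop (𝓝 0) := by
    have h1 : ∀ i, (mean fun a => G (x i a)) - hypN G =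
        ∑ k, c k * ((mean fun a => ∏ j, g (κ k j) (x i a j)) - ∏ j, hyp (g (κ k j))) := by
      intro i
      rw [hGh]
      simp only [mul_sub]
      rw [Finset.sum_sub_distrib]
      congr 1
      unfold mean
      simp only [G]
      rw [Finset.sum_comm, Finset.sum_div]
      refine Finset.sum_congr rfl fun k _ => ?_
      rw [← Finset.mul_sum, mul_div_assoc]
    simp only [h1]
    have h2 : Tendsto (fun i => ∑ k, c k * ((mean fun a => ∏ j, g (κ k j) (x i a j)) -
        ∏ j, hyp (g (κ k j)))) atTop (𝓝 (∑ k, c k * 0)) :=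
      tendsto_finset_sum _ fun k _ => (h (κ k) fun j => ⟨N, hκT k j⟩).const_mul (c k)
    simpa using h2
  have hint : ‖hypN F - hypN G‖ ≤ 2 * δ * V := by
    refine (hypN_sub_le hF.1 hGc hN hGv hFG).trans (le_of_eq ?_)
    rw [hV]
    ring
  have hev := (tendsto_zero_iff_norm_tendsto_zero.1 hGt).eventually_lt_const hδ0
  obtain ⟨i0, hi0⟩ := eventually_atTop.1 hev
  refine ⟨i0, fun i hi => ?_⟩
  have h5 := hi0 i hi.le
  have h6 : ‖(mean fun a => F (x i a)) - mean fun a => G (x i a)‖ ≤ 2 * δ := by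
    rw [mean_sub]
    exact mean_le (by positivity) fun a => hFG _
  rw [dist_eq_norm]
  have e : (mean fun a => F (x i a)) - hypN F =
      ((mean fun a => F (x i a)) - mean fun a => G (x i a)) +
      ((mean fun a => G (x i a)) - hypN G) - (hypN F - hypN G) := by ring
  rw [e]
  have h7 : ‖((mean fun a => F (x i a)) - mean fun a => G (x i a)) +
      ((mean fun a => G (x i a)) - hypN G) - (hypN F - hypN G)‖ ≤ 2 * δ + δ + 2 * δ * V := by
    refine (norm_sub_le _ _).trans (add_le_add ((norm_add_le _ _).trans (add_le_add h6 h5.le)) hint)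
  refine lt_of_le_of_lt h7 ?_
  have h8 : δ * (4 * (1 + V)) = ε := by
    rw [hδ]
    field_simp
  nlinarith

section
variable {n : ℕ} (R : Fin n → ℕ → Type) [∀ j i, CommRing (R j i)] [∀ j i, IsDomain (R j i)]
  [∀ j i, Fintype (ClassGroup (R j i))] (φ : ∀ j i, ClassGroup (R j i) → ℍ)

/-- Outside sets of tuples of classes whose share tends to `0`, all sequences of tuples of CM points have
equidistributed orbits, for all finite sets `A` acting through maps to the class groups whose fibres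
have at most `κ` times the average size. -/
def AlmostAll : Prop := ∀ (κ : ℝ) (A : ℕ → Type) [∀ i, Fintype (A i)] [∀ i, Nonempty (A i)]
  (π : ∀ i j, A i → ClassGroup (R j i)), (∀ i j, Spread (π i j) κ) →
  ∃ E : ∀ i, Set (∀ j, ClassGroup (R j i)), Tendsto (fun i => share fun b => b ∈ E i) atTop (𝓝 0) ∧
    ∀ b : ∀ i j, ClassGroup (R j i), (∀ᶠ i in atTop, b i ∉ E i) →
      Equi fun i (a : A i) j => φ j i (π i j a * b i j)

variable {R φ}

theorem almostAll (h : GeneralLaw R φ) : AlmostAll R φ := by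
  intro κ A iA iN π hπ
  obtain ⟨g, hg, hap⟩ := exists_family
  obtain ⟨e, he⟩ := exists_surjective_nat (Fin n → ℕ)
  obtain ⟨E, hE, hb⟩ := diag (B := fun i => ∀ j, ClassGroup (R j i)) (fun k i b =>
    (mean fun a : A i => ∏ j, g (e k j) (φ j i (π i j a * b j))) - ∏ j, hyp (g (e k j)))
    fun k ε hε => h κ A iA iN π hπ (fun j => g (e k j)) (fun j => hg _) ε hε
  refine ⟨E, hE, fun b hbE => equi_of_family (fun N => ⟨N, hap N⟩) _ fun k _ => ?_⟩
  obtain ⟨k, rfl⟩ := he k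
  exact hb b hbE k

end

end Pool.Agent.X208.CM
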