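import Pool.Agent.X208.CM.Seq

/-! The topology of the modular curve: cutoffs, heights, separability. -/

set_option autoImplicit false

namespace Pool.Agent.X208.CM

open Filter Topology MeasureTheory Set
open scoped UpperHalfPlane MatrixGroups ComplexConjugate

/-- the modular curve -/
abbrev Q : Type := Quotient (MulAction.orbitRel 𝒮ℒ ℍ)

/-- the projection -/
noncomputable def q (z : ℍ) : Q := Quotient.mk (MulAction.orbitRel 𝒮ℒ ℍ) z

theorem q_open : IsOpenQuotientMap q := MulAction.isOpenQuotientMap_quotientMk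

theorem q_eq {z w : ℍ} : q z = q w ↔ ∃ γ : SL(2, ℤ), γ • w = z := by
  unfold q
  rw [Quotient.eq, MulAction.orbitRel_apply]
  constructor
  · rintro ⟨⟨_, γ, rfl⟩, h⟩
    exact ⟨γ, h⟩
  · rintro ⟨γ, h⟩
    exact ⟨⟨_, γ, rfl⟩, h⟩

theorem q_smul (γ : SL(2, ℤ)) (z : ℍ) : q (γ • z) = q z := q_eq.2 ⟨γ, rfl⟩

instance : T2Space Q := inferInstance

instance : LocallyCompactSpace Q := by
  have : WeaklyLocallyCompactSpace Q := ⟨fun x => by
    obtain ⟨z, rfl⟩ := q_open.surjective x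
    obtain ⟨K, hK, hz⟩ := exists_compact_mem_nhds z
    exact ⟨q '' K, hK.image q_open.continuous, q_open.isOpenMap.image_mem_nhds hz⟩⟩
  infer_instance

theorem im_smul_le (γ : SL(2, ℤ)) {w : ℍ} {m : ℝ} (h1 : w.im < m) (h2 : 1 < m * w.im) :
    (γ • w).im < m := by
  rw [ModularGroup.im_smul_eq_div_normSq, ModularGroup.denom_apply]
  have hw := w.im_pos
  have hm : 0 < m := hw.trans h1
  have hn : Complex.normSq ((γ 1 0 : ℂ) * w + (γ 1 1 : ℂ)) =
      ((γ 1 0 : ℝ) * w.re + γ 1 1) ^ 2 + ((γ 1 0 : ℝ) * w.im) ^ 2 := by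
    rw [Complex.normSq_apply]
    simp
    ring
  rw [hn]
  by_cases hc : γ 1 0 = 0
  · have hdet := Matrix.det_fin_two γ.1
    rw [γ.2] at hdet
    have hd : (γ 1 1) ^ 2 = 1 := by
      have hc' : γ.1 1 0 = 0 := hc
      rw [hc', mul_zero, sub_zero] at hdet
      have := Int.isUnit_iff.1 (IsUnit.of_mul_eq_one_right _ hdet.symm)
      rcases this with h | h
      · exact (by rw [show γ 1 1 = 1 from h]; norm_num)
      · exact (by rw [show γ 1 1 = -1 from h]; norm_num)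
    have hd' : ((γ 1 1 : ℤ) : ℝ) ^ 2 = 1 := by exact_mod_cast hd
    rw [hc]
    simp only [Int.cast_zero, zero_mul, zero_add, hd']
    norm_num
    exact h1
  · have hc1 : (1 : ℝ) ≤ ((γ 1 0 : ℤ) : ℝ) ^ 2 := by
      have : (0 : ℤ) < (γ 1 0) ^ 2 := by positivity
      exact_mod_cast this
    have h3 : w.im ^ 2 ≤ ((γ 1 0 : ℝ) * w.re + γ 1 1) ^ 2 + ((γ 1 0 : ℝ) * w.im) ^ 2 := by
      rw [mul_pow]
      nlinarith [sq_nonneg ((γ 1 0 : ℝ) * w.re + γ 1 1), sq_nonneg w.im]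
    rw [div_lt_iff₀ (lt_of_lt_of_le (by positivity) h3)]
    calc w.im < w.im * (m * w.im) := by nlinarith
      _ = m * w.im ^ 2 := by ring
      _ ≤ _ := mul_le_mul_of_nonneg_left h3 hm.le

/-- the heights are bounded on compact sets -/
theorem height {C : Set Q} (hC : IsCompact C) : ∃ m : ℕ, ∀ z : ℍ, q z ∈ C → z.im ≤ m := by
  let O : ℕ → Set Q := fun m => q '' {w : ℍ | w.im < m ∧ 1 < m * w.im}
  have hO : ∀ m, IsOpen (O m) := by
    intro m
    refine q_open.isOpenMap _ ?_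
    have hc : Continuous fun w : ℍ => w.im := UpperHalfPlane.continuous_im
    exact (isOpen_lt hc continuous_const).inter (isOpen_lt continuous_const (continuous_const.mul hc))
  have hcov : C ⊆ ⋃ m, O m := by
    intro x _
    obtain ⟨w, rfl⟩ := q_open.surjective x
    obtain ⟨m, hm⟩ := exists_nat_gt (max w.im (1 / w.im))
    refine mem_iUnion.2 ⟨m, w, ⟨(le_max_left _ _).trans_lt hm, ?_⟩, rfl⟩
    have := (le_max_right _ _).trans_lt hm
    rwa [div_lt_iff₀ w.im_pos] at this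
  have hdir : Directed (· ⊆ ·) O := by
    refine Monotone.directed_le fun a b hab => ?_
    rintro _ ⟨w, ⟨h1, h2⟩, rfl⟩
    have hab' : (a : ℝ) ≤ b := by exact_mod_cast hab
    exact ⟨w, ⟨h1.trans_le hab', h2.trans_le (mul_le_mul_of_nonneg_right hab' w.im_pos.le)⟩, rfl⟩
  obtain ⟨m, hm⟩ := hC.elim_directed_cover O hO hcov hdir
  refine ⟨m, fun z hz => ?_⟩
  obtain ⟨w, ⟨h1, h2⟩, h3⟩ := hm hz
  obtain ⟨γ, rfl⟩ := q_eq.1 h3.symm
  exact (im_smul_le γ h1 h2).le

end Pool.Agent.X208.CM
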